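import Mathlib

/-! # The separation derivative and transfinite differences of closed sets -/

set_option autoImplicit false

open Set Topology Order
open Ordinal (omega0)
open scoped Ordinal

namespace Pool.Agent.R609.Rank

variable {X : Type} [TopologicalSpace X]

/-- `F` is a continuous decreasing sequence of closed sets with `F 0 = X`, with empty intersection
at `lam` and with the value `∅` from `lam` on. -/
structure IsChainOf (F : Ordinal.{0} → Set X) (lam : Ordinal.{0}) : Prop where
  zero : F 0 = univ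
  closed : ∀ η, IsClosed (F η)
  anti : ∀ η θ, η ≤ θ → F θ ⊆ F η
  limit : ∀ η, IsSuccLimit η → F η = ⋂ θ ∈ Set.Iio η, F θ
  empty : ∀ η, lam ≤ η → F η = ∅

/-- The transfinite difference of the sequence `F`: the union of the sets `F η \ F (η + 1)` with
even `η`. -/
def Diff (F : Ordinal.{0} → Set X) : Set X := {x | ∃ ξ, x ∈ F (2 * ξ) \ F (2 * ξ + 1)}

/-- The separation derivative. -/
noncomputable def D (B C : Set X) (ξ : Ordinal.{0}) : Set X :=
  ⋂ ζ : Set.Iio ξ, closure (D B C ζ.1 ∩ B) ∩ closure (D B C ζ.1 ∩ C)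
termination_by ξ
decreasing_by all_goals exact ζ.2

theorem mem_D {B C : Set X} {ξ : Ordinal.{0}} {x : X} :
    x ∈ D B C ξ ↔ ∀ ζ < ξ, x ∈ closure (D B C ζ ∩ B) ∧ x ∈ closure (D B C ζ ∩ C) := by
  rw [D, mem_iInter]
  exact ⟨fun h ζ hζ => h ⟨ζ, hζ⟩, fun h ζ => h ζ.1 ζ.2⟩

theorem D_anti {B C : Set X} {ζ ξ : Ordinal.{0}} (h : ζ ≤ ξ) : D B C ξ ⊆ D B C ζ := by
  intro x hx
  rw [mem_D] at hx ⊢
  exact fun θ hθ => hx θ (hθ.trans_le h)

theorem D_zero (B C : Set X) : D B C 0 = univ := by
  ext x
  rw [mem_D]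
  exact ⟨fun _ => mem_univ _, fun _ ζ hζ => absurd hζ (not_lt.2 zero_le)⟩

theorem D_closed (B C : Set X) (ξ : Ordinal.{0}) : IsClosed (D B C ξ) := by
  rw [D]
  exact isClosed_iInter fun ζ => isClosed_closure.inter isClosed_closure

theorem D_succ (B C : Set X) (ξ : Ordinal.{0}) :
    D B C (ξ + 1) = closure (D B C ξ ∩ B) ∩ closure (D B C ξ ∩ C) := by
  ext x
  rw [mem_D]
  constructor
  · exact fun h => h ξ (Order.lt_add_one_iff.2 le_rfl)
  · intro h ζ hζ
    have h1 : D B C ξ ⊆ D B C ζ := D_anti (Order.lt_add_one_iff.1 hζ)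
    exact ⟨closure_mono (inter_subset_inter_left _ h1) h.1,
      closure_mono (inter_subset_inter_left _ h1) h.2⟩

theorem D_mono {B C B' C' : Set X} (hB : B ⊆ B') (hC : C ⊆ C') (ξ : Ordinal.{0}) :
    D B C ξ ⊆ D B' C' ξ := by
  induction ξ using WellFoundedLT.induction with
  | ind ξ ih =>
    intro x hx
    rw [mem_D] at hx ⊢
    intro ζ hζ
    exact ⟨closure_mono (inter_subset_inter (ih ζ hζ) hB) (hx ζ hζ).1,
      closure_mono (inter_subset_inter (ih ζ hζ) hC) (hx ζ hζ).2⟩

theorem two_mul_le {a b : Ordinal.{0}} (h : a ≤ b) : 2 * a ≤ 2 * b := by gcongr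

theorem parity (η : Ordinal.{0}) : (∃ ξ, η = 2 * ξ) ∨ ∃ ξ, η = 2 * ξ + 1 := by
  have h1 := Ordinal.div_add_mod η 2
  have h2 : η % 2 < 2 := Ordinal.mod_lt η (by norm_num)
  have h3 : η % 2 = 0 ∨ η % 2 = 1 := by
    have h5 : η % 2 < 1 + 1 := h2.trans_eq (by norm_num)
    rcases (Order.lt_add_one_iff.1 h5).lt_or_eq with h4 | h4
    · left
      exact Order.lt_one_iff.1 h4
    · exact Or.inr h4
  rcases h3 with h3 | h3
  · left
    exact ⟨η / 2, by rw [h3, add_zero] at h1; exact h1.symm⟩
  · right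
    exact ⟨η / 2, by rw [h3] at h1; exact h1.symm⟩

theorem two_mul_succ (ξ : Ordinal.{0}) : 2 * (ξ + 1) = 2 * ξ + 1 + 1 := by
  rw [mul_add, mul_one, add_assoc]
  norm_num

/-- `D ξ ⊆ F ξ` for every sequence whose transfinite difference separates `B` from `C`. -/
theorem D_subset_chain {B C : Set X} {F : Ordinal.{0} → Set X} {lam : Ordinal.{0}}
    (hF : IsChainOf F lam) (hB : B ⊆ Diff F) (hC : Disjoint (Diff F) C) (ξ : Ordinal.{0}) :
    D B C ξ ⊆ F ξ := by
  induction ξ using Ordinal.limitRecOn with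
  | zero => rw [hF.zero]; exact subset_univ _
  | add_one ζ ih =>
    rw [D_succ]
    rcases parity ζ with ⟨μ, hμ⟩ | ⟨μ, hμ⟩
    · refine inter_subset_right.trans (closure_minimal ?_ (hF.closed _))
      rintro x ⟨hx, hxC⟩
      by_contra hn
      refine Set.disjoint_left.1 hC (⟨μ, ?_, ?_⟩ : x ∈ Diff F) hxC
      · rw [← hμ]; exact ih hx
      · rw [← hμ]; exact hn
    · refine inter_subset_left.trans (closure_minimal ?_ (hF.closed _))
      rintro x ⟨hx, hxB⟩
      obtain ⟨ν, h1, h2⟩ := hB hxB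
      have h3 : 2 * μ + 1 < 2 * ν + 1 := by
        by_contra hc
        rw [not_lt] at hc
        exact h2 (hF.anti _ _ hc (hμ ▸ ih hx))
      have h4 : μ < ν := by
        by_contra hc
        rw [not_lt] at hc
        have := two_mul_le hc
        exact absurd h3 (not_lt.2 (by gcongr))
      have h5 : ζ + 1 ≤ 2 * ν := by
        rw [hμ, ← two_mul_succ]
        exact two_mul_le (Order.add_one_le_of_lt h4)
      exact hF.anti _ _ h5 h1
  | limit ζ hζ ih =>
    rw [hF.limit ζ hζ]
    intro x hx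
    rw [mem_iInter₂]
    exact fun θ hθ => ih θ hθ (D_anti (le_of_lt hθ) hx)

theorem D_empty_of_chain {B C : Set X} {F : Ordinal.{0} → Set X} {lam : Ordinal.{0}}
    (hF : IsChainOf F lam) (hB : B ⊆ Diff F) (hC : Disjoint (Diff F) C) : D B C lam = ∅ := by
  have h := D_subset_chain hF hB hC lam
  rw [hF.empty lam le_rfl] at h
  exact subset_empty_iff.1 h

open Classical in
/-- The sequence defined from the derivative. -/
noncomputable def chainD (B C : Set X) (η : Ordinal.{0}) : Set X :=
  if η % 2 = 0 then D B C (η / 2) else closure (D B C (η / 2) ∩ C)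

theorem even_mod (ξ : Ordinal.{0}) : (2 * ξ) % 2 = 0 := Ordinal.mul_mod 2 ξ

theorem even_div (ξ : Ordinal.{0}) : (2 * ξ) / 2 = ξ := Ordinal.mul_div_cancel ξ (by norm_num)

theorem odd_mod (ξ : Ordinal.{0}) : (2 * ξ + 1) % 2 = 1 := by
  rw [Ordinal.mul_add_mod_self]
  exact Ordinal.mod_eq_of_lt (by norm_num)

theorem odd_div (ξ : Ordinal.{0}) : (2 * ξ + 1) / 2 = ξ := by
  rw [Ordinal.mul_add_div _ (by norm_num), Ordinal.div_eq_zero_of_lt (by norm_num), add_zero]

theorem chainD_even (B C : Set X) (ξ : Ordinal.{0}) : chainD B C (2 * ξ) = D B C ξ := by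
  rw [chainD, if_pos (even_mod ξ), even_div]

theorem chainD_odd (B C : Set X) (ξ : Ordinal.{0}) :
    chainD B C (2 * ξ + 1) = closure (D B C ξ ∩ C) := by
  rw [chainD, if_neg (by rw [odd_mod]; exact one_ne_zero), odd_div]

theorem chainD_anti (B C : Set X) (η θ : Ordinal.{0}) (h : η ≤ θ) :
    chainD B C θ ⊆ chainD B C η := by
  have key1 : ∀ ξ, closure (D B C ξ ∩ C) ⊆ D B C ξ := fun ξ =>
    closure_minimal inter_subset_left (D_closed _ _ _)
  have key2 : ∀ ξ ξ', ξ < ξ' → D B C ξ' ⊆ closure (D B C ξ ∩ C) := by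
    intro ξ ξ' h
    refine (D_anti (Order.add_one_le_of_lt h)).trans ?_
    rw [D_succ]
    exact inter_subset_right
  rcases parity η with ⟨μ, hμ⟩ | ⟨μ, hμ⟩ <;> rcases parity θ with ⟨ν, hν⟩ | ⟨ν, hν⟩
  · rw [hμ, hν, chainD_even, chainD_even]
    refine D_anti ?_
    by_contra hc
    rw [not_le] at hc
    have : θ < η := by
      rw [hμ, hν]
      exact (mul_lt_mul_iff_right₀ (by norm_num)).2 hc
    exact absurd h (not_le.2 this)
  · rw [hμ, hν, chainD_even, chainD_odd]
    refine (key1 ν).trans (D_anti ?_)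
    by_contra hc
    rw [not_le] at hc
    have h1 : 2 * (ν + 1) ≤ 2 * μ := two_mul_le (Order.add_one_le_of_lt hc)
    rw [two_mul_succ, ← hν, ← hμ] at h1
    exact absurd h (not_le.2 (lt_of_lt_of_le (Order.lt_add_one_iff.2 le_rfl) h1))
  · rw [hμ, hν, chainD_odd, chainD_even]
    refine key2 μ ν ?_
    by_contra hc
    rw [not_lt] at hc
    have h1 := two_mul_le hc
    rw [← hν] at h1
    have h2 : 2 * μ < η := by rw [hμ]; exact Order.lt_add_one_iff.2 le_rfl
    exact absurd h (not_le.2 (h1.trans_lt h2))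
  · rw [hμ, hν, chainD_odd, chainD_odd]
    have : μ ≤ ν := by
      by_contra hc
      rw [not_le] at hc
      have h1 : 2 * (ν + 1) ≤ 2 * μ := two_mul_le (Order.add_one_le_of_lt hc)
      rw [two_mul_succ, ← hν] at h1
      have h2 : 2 * μ < η := by rw [hμ]; exact Order.lt_add_one_iff.2 le_rfl
      exact absurd h (not_le.2 ((Order.lt_add_one_iff.2 le_rfl).trans (h1.trans_lt h2)))
    exact closure_mono (inter_subset_inter_left _ (D_anti this))

theorem two_mul_limit {η : Ordinal.{0}} (h : IsSuccLimit η) : 2 * η = η :=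
  Ordinal.mul_omega0_dvd (by norm_num) (by exact_mod_cast Ordinal.natCast_lt_omega0 2)
    (Ordinal.isSuccPrelimit_iff_omega0_dvd.1 h.isSuccPrelimit)

theorem limit_opow {e : Ordinal.{0}} (he : 1 ≤ e) : IsSuccLimit (ω ^ e : Ordinal.{0}) := by
  have h1 : ω ∣ (ω ^ e : Ordinal.{0}) := by
    have := Ordinal.opow_dvd_opow ω he
    rwa [Ordinal.opow_one] at this
  have h2 := Ordinal.isSuccPrelimit_iff_omega0_dvd.2 h1
  refine ⟨?_, h2⟩
  intro h3
  exact (Ordinal.opow_pos e Ordinal.omega0_pos).ne' (isMin_iff_eq_bot.1 h3)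

/-- The derivative vanishes at a limit ordinal `lam`: there is a separating sequence of this
length. -/
theorem chain_of_D_empty {B C : Set X} {lam : Ordinal.{0}} (hl : IsSuccLimit lam)
    (h : D B C lam = ∅) : IsChainOf (chainD B C) lam ∧ B ⊆ Diff (chainD B C) ∧
      Disjoint (Diff (chainD B C)) C := by
  refine ⟨⟨?_, ?_, chainD_anti B C, ?_, ?_⟩, ?_, ?_⟩
  · have := chainD_even B C 0
    rw [mul_zero, D_zero] at this
    exact this
  · intro η
    rcases parity η with ⟨μ, hμ⟩ | ⟨μ, hμ⟩
    · rw [hμ, chainD_even]; exact D_closed _ _ _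
    · rw [hμ, chainD_odd]; exact isClosed_closure
  · intro η hη
    refine subset_antisymm ?_ ?_
    · intro x hx
      rw [mem_iInter₂]
      exact fun θ hθ => chainD_anti B C θ η (le_of_lt hθ) hx
    · intro x hx
      rw [mem_iInter₂] at hx
      have e1 : chainD B C η = D B C η := by
        have := chainD_even B C η
        rwa [two_mul_limit hη] at this
      rw [e1, mem_D]
      intro ζ hζ
      have h1 : 2 * (ζ + 1) < η := by
        have h2 : ζ + 1 < η := hη.add_one_lt hζ
        have h3 : 2 * (ζ + 1) < 2 * η := (mul_lt_mul_iff_right₀ (by norm_num)).2 h2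
        rwa [two_mul_limit hη] at h3
      have h4 := hx _ h1
      rw [chainD_even, D_succ] at h4
      exact h4
  · intro η hη
    rcases parity η with ⟨μ, hμ⟩ | ⟨μ, hμ⟩
    · rw [hμ, chainD_even]
      refine subset_empty_iff.1 ((D_anti ?_).trans h.subset)
      by_contra hc
      rw [not_le] at hc
      have h3 : 2 * μ < 2 * lam := (mul_lt_mul_iff_right₀ (by norm_num)).2 hc
      rw [two_mul_limit hl, ← hμ] at h3
      exact absurd hη (not_le.2 h3)
    · rw [hμ, chainD_odd]
      have : D B C μ ⊆ ∅ := by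
        refine (D_anti ?_).trans h.subset
        by_contra hc
        rw [not_le] at hc
        have h2 : μ + 1 < lam := hl.add_one_lt hc
        have h3 : 2 * (μ + 1) < 2 * lam := (mul_lt_mul_iff_right₀ (by norm_num)).2 h2
        rw [two_mul_limit hl, two_mul_succ, ← hμ] at h3
        exact absurd hη (not_le.2 ((Order.lt_add_one_iff.2 le_rfl).trans h3))
      rw [subset_empty_iff.1 this, empty_inter, closure_empty]
  · intro x hx
    have hex : ∃ ξ, x ∉ D B C ξ := ⟨lam, by rw [h]; exact notMem_empty x⟩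
    obtain ⟨ξ, hξ, hmin⟩ := WellFounded.has_min (wellFounded_lt (α := Ordinal.{0})) {ξ | x ∉ D B C ξ} hex
    have h1 : ¬ ∀ ζ < ξ, x ∈ closure (D B C ζ ∩ B) ∧ x ∈ closure (D B C ζ ∩ C) := by
      rw [← mem_D]; exact hξ
    push Not at h1
    obtain ⟨ζ, hζ, h2⟩ := h1
    have h3 : x ∈ D B C ζ := by
      by_contra hc
      exact hmin ζ hc hζ
    have h4 := h2 (subset_closure ⟨h3, hx⟩)
    refine ⟨ζ, ?_, ?_⟩
    · rw [chainD_even]; exact h3
    · rw [chainD_odd]; exact h4
  · rw [Set.disjoint_left]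
    rintro x ⟨ξ, h1, h2⟩ hx
    rw [chainD_even] at h1
    rw [chainD_odd] at h2
    exact h2 (subset_closure ⟨h1, hx⟩)

/-- The transfinite difference of a sequence of countable length is `G_δ`. -/
theorem isGδ_diff [TopologicalSpace.PseudoMetrizableSpace X] {F : Ordinal.{0} → Set X} {lam : Ordinal.{0}}
    (hF : IsChainOf F lam) (hc : (Set.Iio lam).Countable) : IsGδ (Diff F) ∧ IsGδ (Diff F)ᶜ := by
  have hle : ∀ μ : Ordinal.{0}, μ ≤ 2 * μ := fun μ => Ordinal.le_mul_right μ (by norm_num)
  constructor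
  · have e : Diff F = ⋂ ξ ∈ Set.Iio lam, ((F (2 * ξ + 1))ᶜ ∪ F (2 * ξ + 1 + 1)) := by
      ext x
      rw [mem_iInter₂]
      constructor
      · rintro ⟨μ, h1, h2⟩ ξ -
        rcases le_or_gt μ ξ with h | h
        · left
          refine fun h3 => h2 (hF.anti _ _ ?_ h3)
          have := two_mul_le h
          gcongr
        · right
          refine hF.anti _ _ ?_ h1
          rw [← two_mul_succ]
          exact two_mul_le (Order.add_one_le_of_lt h)
      · intro h
        have hex : ∃ θ, x ∉ F θ := ⟨lam, by rw [hF.empty lam le_rfl]; exact notMem_empty x⟩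
        obtain ⟨θ, hθ, hmin⟩ := WellFounded.has_min (wellFounded_lt (α := Ordinal.{0})) {θ | x ∉ F θ} hex
        have hmin' : ∀ θ' < θ, x ∈ F θ' := fun θ' h' => by
          by_contra hc
          exact hmin θ' hc h'
        rcases Ordinal.zero_or_succ_or_isSuccLimit θ with h0 | ⟨ζ, hζ⟩ | hlim
        · exact absurd (by rw [h0, hF.zero]; exact mem_univ x) hθ
        · have hζ' : θ = ζ + 1 := by rw [← hζ, Order.succ_eq_add_one]
          subst hζ'
          have h1 : x ∈ F ζ := hmin' ζ (Order.lt_add_one_iff.2 le_rfl)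
          rcases parity ζ with ⟨μ, hμ⟩ | ⟨μ, hμ⟩
          · refine ⟨μ, by rw [← hμ]; exact h1, ?_⟩
            rw [← hμ]
            exact hθ
          · exfalso
            have hμl : μ < lam := by
              by_contra hc
              rw [not_lt] at hc
              rw [hF.empty ζ (hc.trans ((hle μ).trans (by rw [hμ]; exact le_self_add)))] at h1
              exact h1
            rcases h μ hμl with h2 | h2
            · exact h2 (by rw [← hμ]; exact h1)
            · rw [← hμ] at h2
              exact hθ h2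
        · refine absurd ?_ hθ
          rw [hF.limit θ hlim, mem_iInter₂]
          exact hmin'
    rw [e]
    refine IsGδ.biInter hc fun ξ _ => ?_
    exact (hF.closed _).isOpen_compl.isGδ.union (hF.closed _).isGδ
  · have e : (Diff F)ᶜ = ⋂ ξ ∈ Set.Iio lam, ((F (2 * ξ))ᶜ ∪ F (2 * ξ + 1)) := by
      ext x
      rw [mem_iInter₂]
      constructor
      · intro h ξ _
        by_contra hc
        rw [mem_union, not_or, mem_compl_iff, not_not] at hc
        exact h ⟨ξ, hc.1, hc.2⟩
      · rintro h ⟨ξ, h1, h2⟩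
        have hξ : ξ < lam := by
          by_contra hc
          rw [not_lt] at hc
          rw [hF.empty (2 * ξ) (hc.trans (hle ξ))] at h1
          exact h1
        rcases h ξ hξ with h3 | h3
        · exact h3 h1
        · exact h2 h3
    rw [e]
    refine IsGδ.biInter hc fun ξ _ => ?_
    exact (hF.closed _).isOpen_compl.isGδ.union (hF.closed _).isGδ

end Pool.Agent.R609.Rank
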