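import Pool.Agent.R609.Deriv

/-! # The separation derivative on closed sets of witnesses -/

set_option autoImplicit false

open Set Topology Order Filter
open Ordinal (omega0)
open scoped Ordinal

namespace Pool.Agent.R609.Rank

section Baire

variable {X : Type} [TopologicalSpace X] [PolishSpace X]

/-- The derivative of two disjoint `G_δ` sets of a Polish space vanishes at some stage. -/
theorem exists_D_empty {B C : Set X} (hB : IsGδ B) (hC : IsGδ C) (hBC : Disjoint B C) :
    ∃ ξ, D B C ξ = ∅ := by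
  obtain ⟨ζ, ξ, hne, hlt⟩ : ∃ ζ ξ : Ordinal.{0}, D B C ζ = D B C ξ ∧ ζ < ξ := by
    have h := not_injective_of_ordinal (D B C)
    unfold Function.Injective at h
    push Not at h
    obtain ⟨a, b, h1, h2⟩ := h
    rcases lt_or_gt_of_ne h2 with h3 | h3
    · exact ⟨a, b, h1, h3⟩
    · exact ⟨b, a, h1.symm, h3⟩
  refine ⟨ζ, ?_⟩
  set P := D B C ζ with hP
  have hP1 : P = D B C (ζ + 1) :=
    subset_antisymm (hne.subset.trans (D_anti (Order.add_one_le_of_lt hlt)))
      (D_anti (Order.lt_add_one_iff.2 le_rfl).le)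
  rw [D_succ, ← hP] at hP1
  have hPc : IsClosed P := D_closed B C ζ
  by_contra hne'
  have hPn : P.Nonempty := nonempty_iff_ne_empty.2 hne'
  have : Nonempty P := hPn.to_subtype
  have : PolishSpace P := hPc.polishSpace
  have dense : ∀ A : Set X, P ⊆ closure (P ∩ A) → Dense ((↑) ⁻¹' A : Set P) := by
    intro A hA
    rw [Subtype.dense_iff]
    intro x hx
    have h1 := hA hx
    convert h1 using 2
    ext y
    simp only [mem_image, mem_preimage, Subtype.exists, exists_and_left, exists_prop,
      exists_eq_right_right, mem_inter_iff]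
    tauto
  have d1 := dense B (hP1.subset.trans inter_subset_left)
  have d2 := dense C (hP1.subset.trans inter_subset_right)
  have g1 : IsGδ ((↑) ⁻¹' B : Set P) := hB.preimage continuous_subtype_val
  have g2 : IsGδ ((↑) ⁻¹' C : Set P) := hC.preimage continuous_subtype_val
  have d3 := d1.inter_of_Gδ g1 g2 d2
  obtain ⟨x, hx⟩ := d3.nonempty
  exact Set.disjoint_left.1 hBC hx.1 hx.2

end Baire

variable {X : Type} [MetricSpace X]

/-- A union of closed sets which shrink to a point, together with the point, is closed. -/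
theorem isClosed_shrink (y : X) (K : ℕ → Set X) (hK : ∀ n, IsClosed (K n))
    (hs : ∀ n, K n ⊆ Metric.ball y (1 / ((n : ℝ) + 1))) : IsClosed ({y} ∪ ⋃ n, K n) := by
  rw [← isOpen_compl_iff, Metric.isOpen_iff]
  intro z hz
  rw [mem_compl_iff, mem_union, not_or, mem_singleton_iff] at hz
  obtain ⟨hzy, hzK⟩ := hz
  have hd : 0 < dist z y := dist_pos.2 hzy
  obtain ⟨N, hN⟩ := exists_nat_one_div_lt (half_pos hd)
  have hfin : IsClosed (⋃ n ∈ Finset.range (N + 1), K n) :=
    isClosed_biUnion_finset fun n _ => hK n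
  have hz' : z ∈ (⋃ n ∈ Finset.range (N + 1), K n)ᶜ := by
    rw [mem_compl_iff, mem_iUnion₂]
    rintro ⟨n, -, h⟩
    exact hzK (mem_iUnion.2 ⟨n, h⟩)
  obtain ⟨ε, hε, hball⟩ := Metric.isOpen_iff.1 hfin.isOpen_compl z hz'
  refine ⟨min ε (dist z y / 2), lt_min hε (half_pos hd), ?_⟩
  intro w hw
  rw [Metric.mem_ball, lt_min_iff] at hw
  rw [mem_compl_iff, mem_union, not_or, mem_singleton_iff]
  have h1 : dist z y / 2 < dist w y := by
    have := dist_triangle z w y
    rw [dist_comm z w] at this
    linarith [hw.2]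
  refine ⟨fun h => ?_, fun h => ?_⟩
  · rw [h, dist_self] at h1
    linarith
  · obtain ⟨n, hn⟩ := mem_iUnion.1 h
    by_cases hnN : n < N + 1
    · have h2 := hball (Metric.mem_ball.2 hw.1)
      rw [mem_compl_iff, mem_iUnion₂] at h2
      exact h2 ⟨n, Finset.mem_range.2 hnN, hn⟩
    · have h2 := Metric.mem_ball.1 (hs n hn)
      have h3 : (1 : ℝ) / (n + 1) ≤ 1 / (N + 1) := by
        apply one_div_le_one_div_of_le (by positivity)
        have : N ≤ n := by omega
        have : (N : ℝ) ≤ n := by exact_mod_cast this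
        linarith
      linarith

/-- Points of the derivative are points of the derivative on a small closed set of points of
`B ∪ C`. -/
theorem witness (B C : Set X) (ξ : Ordinal.{0}) (hξ : (Set.Iio ξ).Countable) :
    ∀ y ∈ D B C ξ, y ∈ B ∪ C → ∀ U : Set X, IsOpen U → y ∈ U →
      ∃ K : Set X, IsClosed K ∧ K ⊆ (B ∪ C) ∩ U ∧ y ∈ K ∧ y ∈ D (B ∩ K) (C ∩ K) ξ := by
  induction ξ using WellFoundedLT.induction with
  | ind ξ ih =>
    intro y hy hyBC U hU hyU
    rcases (Set.Iio ξ).eq_empty_or_nonempty with h0 | hne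
    · refine ⟨{y}, isClosed_singleton, ?_, rfl, ?_⟩
      · rintro z rfl
        exact ⟨hyBC, hyU⟩
      · rw [mem_D]
        intro ζ hζ
        have : ζ ∈ Set.Iio ξ := hζ
        rw [h0] at this
        exact absurd this (notMem_empty _)
    · have : Nonempty (Set.Iio ξ) := hne.to_subtype
      have : Countable (Set.Iio ξ) := hξ.to_subtype
      obtain ⟨e, he⟩ := exists_surjective_nat (Set.Iio ξ × Bool)
      -- the pieces
      have hpiece : ∀ n : ℕ, ∃ (x : X) (K : Set X), IsClosed K ∧
          K ⊆ (B ∪ C) ∩ U ∧ K ⊆ Metric.ball y (1 / ((n : ℝ) + 1)) ∧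
          x ∈ K ∧ (if (e (Nat.unpair n).1).2 = true then x ∈ B else x ∈ C) ∧
          x ∈ D (B ∩ K) (C ∩ K) (e (Nat.unpair n).1).1.1 := by
        intro n
        set ζ := (e (Nat.unpair n).1).1 with hζ
        have hr : (0 : ℝ) < 1 / ((n : ℝ) + 1) := by positivity
        have hV : IsOpen (U ∩ Metric.ball y (1 / ((n : ℝ) + 1))) := hU.inter Metric.isOpen_ball
        have hyV : y ∈ U ∩ Metric.ball y (1 / ((n : ℝ) + 1)) := ⟨hyU, Metric.mem_ball_self hr⟩
        have hcount : (Set.Iio ζ.1).Countable := hξ.mono (Iio_subset_Iio (le_of_lt ζ.2))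
        have hcl := (mem_D.1 hy) ζ.1 ζ.2
        by_cases hs : (e (Nat.unpair n).1).2 = true
        · obtain ⟨x, hxV, hxD, hxB⟩ := mem_closure_iff.1 hcl.1 _ hV hyV
          obtain ⟨K, hK1, hK2, hK3, hK4⟩ := ih ζ.1 ζ.2 hcount x hxD (Or.inl hxB) _ hV hxV
          refine ⟨x, K, hK1, fun z hz => ⟨(hK2 hz).1, (hK2 hz).2.1⟩, fun z hz => (hK2 hz).2.2,
            hK3, ?_, hK4⟩
          rw [if_pos hs]
          exact hxB
        · obtain ⟨x, hxV, hxD, hxC⟩ := mem_closure_iff.1 hcl.2 _ hV hyV
          obtain ⟨K, hK1, hK2, hK3, hK4⟩ := ih ζ.1 ζ.2 hcount x hxD (Or.inr hxC) _ hV hxV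
          refine ⟨x, K, hK1, fun z hz => ⟨(hK2 hz).1, (hK2 hz).2.1⟩, fun z hz => (hK2 hz).2.2,
            hK3, ?_, hK4⟩
          rw [if_neg hs]
          exact hxC
      choose x K hK1 hK2 hK3 hK4 hK5 hK6 using hpiece
      refine ⟨{y} ∪ ⋃ n, K n, isClosed_shrink y K hK1 hK3, ?_, Or.inl rfl, ?_⟩
      · rintro z (rfl | hz)
        · exact ⟨hyBC, hyU⟩
        · obtain ⟨n, hn⟩ := mem_iUnion.1 hz
          exact hK2 n hn
      · have hsub : ∀ n, K n ⊆ {y} ∪ ⋃ n, K n := fun n z hz => Or.inr (mem_iUnion.2 ⟨n, hz⟩)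
        rw [mem_D]
        intro ζ hζ
        have key : ∀ (s : Bool) (A : Set X), (∀ n, (e (Nat.unpair n).1) = (⟨ζ, hζ⟩, s) →
            x n ∈ A) → y ∈ closure (D (B ∩ ({y} ∪ ⋃ n, K n)) (C ∩ ({y} ∪ ⋃ n, K n)) ζ ∩
              (A ∩ ({y} ∪ ⋃ n, K n))) := by
          intro s A hA
          obtain ⟨k, hk⟩ := he (⟨ζ, hζ⟩, s)
          rw [Metric.mem_closure_iff]
          intro ε hε
          obtain ⟨N, hN⟩ := exists_nat_one_div_lt hε
          set n := Nat.pair k N with hn
          have hen : e (Nat.unpair n).1 = (⟨ζ, hζ⟩, s) := by rw [hn, Nat.unpair_pair]; exact hk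
          refine ⟨x n, ⟨?_, hA n hen, hsub n (hK4 n)⟩, ?_⟩
          · have h1 := hK6 n
            rw [hen] at h1
            exact D_mono (inter_subset_inter_right _ (hsub n))
              (inter_subset_inter_right _ (hsub n)) _ h1
          · have h1 := Metric.mem_ball.1 (hK3 n (hK4 n))
            rw [dist_comm]
            refine h1.trans (lt_of_le_of_lt ?_ hN)
            apply one_div_le_one_div_of_le (by positivity)
            have : N ≤ n := Nat.right_le_pair k N
            have : (N : ℝ) ≤ n := by exact_mod_cast this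
            linarith
        constructor
        · refine key true B fun n hn => ?_
          have := hK5 n
          rw [hn] at this
          simpa using this
        · refine key false C fun n hn => ?_
          have := hK5 n
          rw [hn] at this
          simpa using this

/-- If the derivative does not vanish at a countable limit ordinal `lam` then this holds also for
the traces of `B` and `C` on a subset `A` of `B ∪ C` which is a closed set with at most one point
removed. -/
theorem witness_limit (B C : Set X) (lam : Ordinal.{0}) (hl : IsSuccLimit lam)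
    (hc : (Set.Iio lam).Countable) {y : X} (hy : y ∈ D B C lam) :
    ∃ A : Set X, A ⊆ B ∪ C ∧ closure A ⊆ A ∪ {y} ∧ (D (B ∩ A) (C ∩ A) lam).Nonempty := by
  have hne : (Set.Iio lam).Nonempty := ⟨0, hl.bot_lt⟩
  have : Nonempty (Set.Iio lam) := hne.to_subtype
  have : Countable (Set.Iio lam) := hc.to_subtype
  obtain ⟨e, he⟩ := exists_surjective_nat (Set.Iio lam)
  have hpiece : ∀ n : ℕ, ∃ (x : X) (K : Set X), IsClosed K ∧ K ⊆ B ∪ C ∧
      K ⊆ Metric.ball y (1 / ((n : ℝ) + 1)) ∧ x ∈ K ∧
      x ∈ D (B ∩ K) (C ∩ K) (e (Nat.unpair n).1).1 := by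
    intro n
    set ζ := e (Nat.unpair n).1 with hζ
    have hr : (0 : ℝ) < 1 / ((n : ℝ) + 1) := by positivity
    have hcount : (Set.Iio ζ.1).Countable := hc.mono (Iio_subset_Iio (le_of_lt ζ.2))
    have hcl := (mem_D.1 hy) ζ.1 ζ.2
    obtain ⟨x, hxV, hxD, hxB⟩ := mem_closure_iff.1 hcl.1 _ Metric.isOpen_ball
      (Metric.mem_ball_self hr)
    obtain ⟨K, hK1, hK2, hK3, hK4⟩ := witness B C ζ.1 hcount x hxD (Or.inl hxB) _
      Metric.isOpen_ball hxV
    exact ⟨x, K, hK1, fun z hz => (hK2 hz).1, fun z hz => (hK2 hz).2, hK3, hK4⟩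
  choose x K hK1 hK2 hK3 hK4 hK5 using hpiece
  refine ⟨⋃ n, K n, iUnion_subset hK2, ?_, y, ?_⟩
  · have h1 := isClosed_shrink y K hK1 hK3
    rw [union_comm] at h1
    exact closure_minimal subset_union_left h1
  · have hsub : ∀ n, K n ⊆ ⋃ n, K n := fun n => subset_iUnion K n
    have hmem : ∀ ζ < lam, y ∈ D (B ∩ ⋃ n, K n) (C ∩ ⋃ n, K n) ζ := by
      intro ζ hζ
      obtain ⟨k, hk⟩ := he ⟨ζ, hζ⟩
      rw [← (D_closed (B ∩ ⋃ n, K n) (C ∩ ⋃ n, K n) ζ).closure_eq, Metric.mem_closure_iff]
      intro ε hε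
      obtain ⟨N, hN⟩ := exists_nat_one_div_lt hε
      set n := Nat.pair k N with hn
      have hen : e (Nat.unpair n).1 = ⟨ζ, hζ⟩ := by rw [hn, Nat.unpair_pair]; exact hk
      refine ⟨x n, ?_, ?_⟩
      · have h1 := hK5 n
        rw [hen] at h1
        exact D_mono (inter_subset_inter_right _ (hsub n))
          (inter_subset_inter_right _ (hsub n)) _ h1
      · have h1 := Metric.mem_ball.1 (hK3 n (hK4 n))
        rw [dist_comm]
        refine h1.trans (lt_of_le_of_lt ?_ hN)
        apply one_div_le_one_div_of_le (by positivity)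
        have : N ≤ n := Nat.right_le_pair k N
        have : (N : ℝ) ≤ n := by exact_mod_cast this
        linarith
    rw [mem_D]
    intro ζ hζ
    have h1 := hmem (ζ + 1) (hl.add_one_lt hζ)
    rw [D_succ] at h1
    exact h1

/-- A closed set with at most one point removed has small rank. -/
theorem D_small {A : Set X} {y : X} (hA : closure A ⊆ A ∪ {y}) : D A Aᶜ 3 = ∅ := by
  have h1 : D A Aᶜ 1 ⊆ A ∪ {y} := by
    rw [← zero_add (1 : Ordinal.{0}), D_succ]
    exact inter_subset_left.trans ((closure_mono inter_subset_right).trans hA)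
  have e2 : (2 : Ordinal.{0}) = 1 + 1 := by norm_num
  have e3 : (3 : Ordinal.{0}) = 2 + 1 := by norm_num
  have h2 : D A Aᶜ 2 ⊆ {y} := by
    rw [e2, D_succ]
    refine inter_subset_right.trans (closure_minimal ?_ isClosed_singleton)
    rintro z ⟨hz, hz'⟩
    rcases h1 hz with h | h
    · exact absurd h hz'
    · exact h
  rw [e3, D_succ]
  by_cases hy : y ∈ A
  · have : D A Aᶜ 2 ∩ Aᶜ = ∅ := by
      ext z
      constructor
      · rintro ⟨hz, hz'⟩
        rw [mem_singleton_iff.1 (h2 hz)] at hz'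
        exact absurd hy hz'
      · exact fun h => absurd h (notMem_empty _)
    rw [this, closure_empty, inter_empty]
  · have : D A Aᶜ 2 ∩ A = ∅ := by
      ext z
      constructor
      · rintro ⟨hz, hz'⟩
        rw [mem_singleton_iff.1 (h2 hz)] at hz'
        exact absurd hz' hy
      · exact fun h => absurd h (notMem_empty _)
    rw [this, closure_empty, empty_inter]

theorem isGδ_small {A : Set X} {y : X} (hA : closure A ⊆ A ∪ {y}) : IsGδ A ∧ IsGδ Aᶜ := by
  by_cases hy : y ∈ A
  · have : IsClosed A := by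
      refine isClosed_of_closure_subset (hA.trans ?_)
      rintro z (h | h)
      · exact h
      · rw [mem_singleton_iff.1 h]; exact hy
    exact ⟨this.isGδ, this.isOpen_compl.isGδ⟩
  · have e1 : A = closure A ∩ {y}ᶜ := by
      ext z
      constructor
      · intro h
        refine ⟨subset_closure h, fun hz => ?_⟩
        rw [mem_singleton_iff.1 hz] at h
        exact hy h
      · rintro ⟨h, h'⟩
        rcases hA h with h1 | h1
        · exact h1
        · exact absurd h1 h'
    constructor
    · rw [e1]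
      exact isClosed_closure.isGδ.inter isOpen_compl_singleton.isGδ
    · rw [e1, compl_inter, compl_compl]
      exact isClosed_closure.isOpen_compl.isGδ.union isClosed_singleton.isGδ

end Pool.Agent.R609.Rank
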