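import Mathlib

/-! # Smooth interpolation of functions on the integers -/

set_option autoImplicit false

open Filter Topology Real
open scoped ContDiff

namespace Pool.Agent.R609

/-- The smooth function with the values `g n` at the integers `n` which is monotone on each interval
`[n, n + 1]`. -/
noncomputable def itp (g : ℤ → ℝ) (t : ℝ) : ℝ :=
  g ⌊t⌋ + (g (⌊t⌋ + 1) - g ⌊t⌋) * smoothTransition (t - ⌊t⌋)

theorem itp_int (g : ℤ → ℝ) (n : ℤ) : itp g n = g n := by
  simp [itp, smoothTransition.zero]

theorem itp_cell (g : ℤ → ℝ) (n : ℤ) {t : ℝ} (h1 : (n : ℝ) ≤ t) (h2 : t ≤ n + 1) :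
    itp g t = g n + (g (n + 1) - g n) * smoothTransition (t - n) := by
  rcases h2.lt_or_eq with h | h
  · have : ⌊t⌋ = n := Int.floor_eq_iff.2 ⟨h1, h⟩
    rw [itp, this]
  · have h3 : t = ((n + 1 : ℤ) : ℝ) := by rw [h]; push_cast; ring
    rw [h3, itp_int]
    have : ((n + 1 : ℤ) : ℝ) - n = 1 := by push_cast; ring
    rw [this, smoothTransition.one]
    ring

theorem itp_local (g : ℤ → ℝ) (n : ℤ) {t : ℝ} (h1 : (n : ℝ) - 1 < t) (h2 : t < n + 1) :
    itp g t = g n + (g (n + 1) - g n) * smoothTransition (t - n) +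
      (g n - g (n - 1)) * (smoothTransition (t - n + 1) - 1) := by
  rcases le_total (n : ℝ) t with h | h
  · rw [itp_cell g n h h2.le, smoothTransition.one_of_one_le (by linarith : (1 : ℝ) ≤ t - n + 1)]
    ring
  · have h3 : ((n - 1 : ℤ) : ℝ) ≤ t := by push_cast; linarith
    have h4 : t ≤ ((n - 1 : ℤ) : ℝ) + 1 := by push_cast; linarith
    rw [itp_cell g (n - 1) h3 h4, smoothTransition.zero_of_nonpos (by linarith : t - n ≤ 0)]
    have h5 : t - ((n - 1 : ℤ) : ℝ) = t - n + 1 := by push_cast; ring
    rw [h5, sub_add_cancel]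
    ring

theorem itp_eventually (g : ℤ → ℝ) (n : ℤ) {t : ℝ} (h1 : (n : ℝ) - 1 < t) (h2 : t < n + 1) :
    itp g =ᶠ[𝓝 t] fun t => g n + (g (n + 1) - g n) * smoothTransition (t - n) +
      (g n - g (n - 1)) * (smoothTransition (t - n + 1) - 1) := by
  filter_upwards [Ioo_mem_nhds h1 h2] with u hu
  exact itp_local g n hu.1 hu.2

theorem contDiff_itp (g : ℤ → ℝ) : ContDiff ℝ ∞ (itp g) := by
  rw [contDiff_iff_contDiffAt]
  intro t
  have h1 := Int.floor_le t
  have h2 := Int.lt_floor_add_one t
  refine ContDiffAt.congr_of_eventuallyEq ?_ (itp_eventually g ⌊t⌋ (by linarith) h2)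
  have h3 : ContDiff ℝ ∞ (fun t : ℝ => smoothTransition (t - ⌊t⌋)) → True := fun _ => trivial
  have h4 : ∀ c : ℝ, ContDiff ℝ ∞ (fun u : ℝ => smoothTransition (u - c)) := fun c =>
    (smoothTransition.contDiff (n := ⊤)).comp (contDiff_id.sub contDiff_const)
  have h5 : ∀ c : ℝ, ContDiff ℝ ∞ (fun u : ℝ => smoothTransition (u - c + 1)) := fun c =>
    (smoothTransition.contDiff (n := ⊤)).comp ((contDiff_id.sub contDiff_const).add contDiff_const)
  exact (((contDiff_const.add (contDiff_const.mul (h4 _)))).add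
    (contDiff_const.mul ((h5 _).sub contDiff_const))).contDiffAt

theorem continuous_itp (g : ℤ → ℝ) : Continuous (itp g) := (contDiff_itp g).continuous

theorem exists_deriv_bound : ∃ C : ℝ, ∀ x, |deriv smoothTransition x| ≤ C := by
  have h1 : Continuous (deriv smoothTransition) :=
    (smoothTransition.contDiff (n := 1)).continuous_deriv le_rfl
  have h2 : HasCompactSupport (deriv smoothTransition) := by
    refine HasCompactSupport.intro (isCompact_Icc (a := (0 : ℝ)) (b := 1)) fun x hx => ?_
    rcases lt_or_ge x 0 with h | h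
    · have : smoothTransition =ᶠ[𝓝 x] fun _ => (0 : ℝ) := by
        filter_upwards [Iio_mem_nhds h] with u hu
        exact smoothTransition.zero_of_nonpos hu.le
      rw [this.deriv_eq]
      simp
    · have h' : 1 < x := by
        by_contra hc
        exact hx ⟨h, not_lt.1 hc⟩
      have : smoothTransition =ᶠ[𝓝 x] fun _ => (1 : ℝ) := by
        filter_upwards [Ioi_mem_nhds h'] with u hu
        exact smoothTransition.one_of_one_le hu.le
      rw [this.deriv_eq]
      simp
  obtain ⟨C, hC⟩ := h1.bounded_above_of_compact_support h2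
  exact ⟨C, fun x => by simpa using hC x⟩

theorem lipschitz_itp (g : ℤ → ℝ) (C : ℝ) (hg : ∀ n, |g (n + 1) - g n| ≤ C) :
    ∃ K, LipschitzWith K (itp g) := by
  obtain ⟨M, hM⟩ := exists_deriv_bound
  have hM0 : 0 ≤ M := (abs_nonneg _).trans (hM 0)
  have hC0 : 0 ≤ C := (abs_nonneg _).trans (hg 0)
  have hdiff : Differentiable ℝ (itp g) := (contDiff_itp g).differentiable (by simp)
  refine ⟨Real.toNNReal (2 * C * M), lipschitzWith_of_nnnorm_deriv_le hdiff fun t => ?_⟩
  have h1 := Int.floor_le t
  have h2 := Int.lt_floor_add_one t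
  set n := ⌊t⌋ with hn
  have hσ : Differentiable ℝ smoothTransition :=
    (smoothTransition.contDiff (n := 1)).differentiable one_ne_zero
  have e := (itp_eventually g n (by linarith) h2).deriv_eq
  have d1 : HasDerivAt (fun u : ℝ => smoothTransition (u - n))
      (deriv smoothTransition (t - n)) t := by
    exact HasDerivAt.comp_sub_const t (n : ℝ) (hσ (t - n)).hasDerivAt
  have d2 : HasDerivAt (fun u : ℝ => smoothTransition (u - n + 1))
      (deriv smoothTransition (t - n + 1)) t := by
    have h0 : ∀ u : ℝ, u - n + 1 = u - (n - 1) := fun u => by ring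
    simp only [h0]
    exact HasDerivAt.comp_sub_const t ((n : ℝ) - 1) (hσ (t - (n - 1))).hasDerivAt
  have d3 : HasDerivAt (fun u : ℝ => g n + (g (n + 1) - g n) * smoothTransition (u - n) +
      (g n - g (n - 1)) * (smoothTransition (u - n + 1) - 1))
      ((g (n + 1) - g n) * deriv smoothTransition (t - n) +
        (g n - g (n - 1)) * deriv smoothTransition (t - n + 1)) t :=
    ((d1.const_mul _).const_add _).add ((d2.sub_const 1).const_mul _)
  rw [e, d3.deriv, ← NNReal.coe_le_coe, Real.coe_toNNReal _ (by positivity), coe_nnnorm,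
    Real.norm_eq_abs]
  have h3 : |g n - g (n - 1)| ≤ C := by
    have := hg (n - 1)
    rwa [sub_add_cancel] at this
  calc _ ≤ |(g (n + 1) - g n) * deriv smoothTransition (t - n)| +
        |(g n - g (n - 1)) * deriv smoothTransition (t - n + 1)| := abs_add_le _ _
    _ ≤ C * M + C * M := by
        rw [abs_mul, abs_mul]
        exact add_le_add (mul_le_mul (hg n) (hM _) (abs_nonneg _) hC0)
          (mul_le_mul h3 (hM _) (abs_nonneg _) hC0)
    _ = 2 * C * M := by ring

/-- On an open interval between two integers with the values in `[k, k + 1]`, not both equal to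
`k + 1`, and not both equal to `k`: strictly between. -/
theorem itp_mem_Ioo (g : ℤ → ℝ) (n : ℤ) {t a b : ℝ} (h1 : (n : ℝ) < t) (h2 : t < n + 1)
    (ha : a ≤ g n) (ha' : a ≤ g (n + 1)) (hb : g n ≤ b) (hb' : g (n + 1) ≤ b)
    (hne : g n ≠ g (n + 1)) : a < itp g t ∧ itp g t < b := by
  rw [itp_cell g n h1.le h2.le]
  have s1 : 0 < smoothTransition (t - n) := smoothTransition.pos_of_pos (by linarith)
  have s2 : smoothTransition (t - n) < 1 := smoothTransition.lt_one_of_lt_one (by linarith)
  set σ := smoothTransition (t - n)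
  rcases lt_or_gt_of_ne hne with h | h
  · constructor <;> nlinarith
  · constructor <;> nlinarith

theorem itp_const (g : ℤ → ℝ) (n : ℤ) {t a : ℝ} (h1 : (n : ℝ) ≤ t) (h2 : t ≤ n + 1)
    (ha : g n = a) (hb : g (n + 1) = a) : itp g t = a := by
  rw [itp_cell g n h1 h2, ha, hb]
  ring

/-- The interpolation lies between the values at the end points. -/
theorem itp_mem_Icc (g : ℤ → ℝ) (n : ℤ) {t a b : ℝ} (h1 : (n : ℝ) ≤ t) (h2 : t ≤ n + 1)
    (ha : a ≤ g n) (ha' : a ≤ g (n + 1)) (hb : g n ≤ b) (hb' : g (n + 1) ≤ b) :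
    a ≤ itp g t ∧ itp g t ≤ b := by
  rw [itp_cell g n h1 h2]
  have s1 : 0 ≤ smoothTransition (t - n) := smoothTransition.nonneg _
  have s2 : smoothTransition (t - n) ≤ 1 := smoothTransition.le_one _
  set σ := smoothTransition (t - n)
  constructor <;> nlinarith

end Pool.Agent.R609
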