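import Pool.Agent.R609.Tents

/-! # Reductions between functions with tents -/

set_option autoImplicit false

open Filter Topology Real Set
open scoped ContDiff

namespace Pool.Agent.R609.Tents

open Pool.Agent.R609

/-! ### Continuous reductions -/

theorem floor_near {u : ℝ → ℝ} (hu : Continuous u) (t : ℝ) :
    ∀ᶠ s in 𝓝 t, ⌊u s⌋ = ⌊u t⌋ ∨ ⌊u s⌋ = ⌊u t⌋ - 1 := by
  have h1 := Int.floor_le (u t)
  have h2 := Int.lt_floor_add_one (u t)
  have h3 : ∀ᶠ s in 𝓝 t, u s < ⌊u t⌋ + 1 := hu.continuousAt.eventually (gt_mem_nhds h2)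
  have h4 : ∀ᶠ s in 𝓝 t, (⌊u t⌋ : ℝ) - 1 < u s :=
    hu.continuousAt.eventually (lt_mem_nhds (by linarith))
  filter_upwards [h3, h4] with s h5 h6
  have h7 : ⌊u s⌋ < ⌊u t⌋ + 1 := Int.floor_lt.2 (by exact_mod_cast h5)
  have h8 : ⌊u t⌋ - 1 ≤ ⌊u s⌋ := Int.le_floor.2 (by push_cast; exact h6.le)
  omega

/-- If the floors of two continuous functions have the same parity then their difference is
constant. -/
theorem floor_diff {u v : ℝ → ℝ} (hu : Continuous u) (hv : Continuous v)
    (h : ∀ t, (Even ⌊u t⌋ ↔ Even ⌊v t⌋)) (t t' : ℝ) : ⌊u t⌋ - ⌊v t⌋ = ⌊u t'⌋ - ⌊v t'⌋ := by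
  have h1 : IsLocallyConstant fun t => ⌊u t⌋ - ⌊v t⌋ := by
    rw [IsLocallyConstant.iff_eventually_eq]
    intro t
    filter_upwards [floor_near hu t, floor_near hv t] with s h2 h3
    have h4 := h s
    have h5 := h t
    rw [Int.even_iff, Int.even_iff] at h4 h5
    omega
  exact h1.apply_eq_of_isPreconnected isPreconnected_univ (mem_univ _) (mem_univ _)

/-- A continuous function takes the intermediate values. -/
theorem ivt {f : ℝ → ℝ} (hf : Continuous f) {a b c : ℝ} (hab : a ≤ b) (h1 : f a ≤ c)
    (h2 : c ≤ f b) : ∃ t, a ≤ t ∧ t ≤ b ∧ f t = c := by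
  obtain ⟨t, ht, ht'⟩ := intermediate_value_Icc hab hf.continuousOn ⟨h1, h2⟩
  exact ⟨t, ht.1, ht.2, ht'⟩

theorem ivt_uIcc {f : ℝ → ℝ} (hf : Continuous f) (a b : ℝ) {c : ℝ} (h1 : f a ≤ c)
    (h2 : c ≤ f b) : ∃ t, f t = c := by
  obtain ⟨t, -, ht'⟩ := intermediate_value_uIcc (a := a) (b := b) hf.continuousOn
    (mem_uIcc.2 (Or.inl ⟨h1, h2⟩))
  exact ⟨t, ht'⟩

section

variable {x y : Set ℕ} {f : ℝ → ℝ}

/-- The levels are preserved. -/
theorem level_eq (hf : Continuous f) (h0 : ∀ t, (Even ⌊h y (f t)⌋ ↔ Even ⌊h x t⌋)) (t : ℝ) :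
    ⌊h y (f t)⌋ = ⌊h x t⌋ := by
  have hc := floor_diff ((continuous_h y).comp hf) (continuous_h x) h0
  have hc' : ∀ t, ⌊h y (f t)⌋ - ⌊h x t⌋ = ⌊h y (f 0)⌋ - ⌊h x 0⌋ := fun t => hc t 0
  rw [h_nonpos x le_rfl, Int.floor_zero, sub_zero] at hc'
  set D := ⌊h y (f 0)⌋ with hD
  have hD0 : 0 ≤ D := floor_h_nonneg _ _
  rcases hD0.lt_or_eq with hD1 | hD1
  · exfalso
    obtain ⟨K, hK⟩ : ∃ K : ℕ, f 0 < sv (K + 1) := by
      obtain ⟨K, hK⟩ := exists_nat_gt (f 0)
      refine ⟨K, hK.trans_le ?_⟩
      have := le_sv (K + 1)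
      have h2 : (K : ℤ) ≤ sv (K + 1) := by push_cast at this; omega
      exact_mod_cast h2
    have hlev : ∀ t, 1 ≤ ⌊h y (f t)⌋ := by
      intro t
      have h1 := hc' t
      have h2 := floor_h_nonneg x t
      omega
    have hlt : ∀ t, f t < sv (K + 1) := by
      intro t
      by_contra hcon
      obtain ⟨t', ht'⟩ := ivt_uIcc hf 0 t hK.le (not_lt.1 hcon)
      have h1 := hlev t'
      rw [ht', floor_h_sv] at h1
      omega
    have h1 := hc' (cv (K + 1))
    have h2 := floor_h_le y (hlt (cv (K + 1))).le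
    rw [floor_h_cv] at h1
    push_cast at h1
    omega
  · have := hc' t
    omega

theorem claimA (hf : Continuous f) (hl : ∀ t, ⌊h y (f t)⌋ = ⌊h x t⌋) (m : ℕ) :
    (cv m : ℝ) < f (sv (m + 1)) := by
  by_contra hcon
  rw [not_lt] at hcon
  have h1 : (sv (m + 1) : ℝ) < f (cv (m + 1)) := by
    by_contra hc
    have h2 := floor_h_le y (not_lt.1 hc)
    rw [hl, floor_h_cv] at h2
    push_cast at h2
    omega
  have h2 : (cv m : ℝ) ≤ sv (m + 1) := by exact_mod_cast cv_le_sv m
  have h3 : (sv (m + 1) : ℝ) ≤ cv (m + 1) := by exact_mod_cast sv_le_cv (m + 1)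
  obtain ⟨t1, a1, a2, a3⟩ := ivt hf h3 hcon (h2.trans h1.le)
  obtain ⟨t2, b1, b2, b3⟩ := ivt hf a2 (a3.le.trans h2) h1.le
  have e1 := hl t1
  have e2 := hl t2
  rw [a3, floor_h_cv] at e1
  rw [b3, floor_h_sv] at e2
  by_cases hc : t2 < sv (m + 1) + 1
  · have := up_lt x (m + 1) a1 (b1.trans_lt hc)
    omega
  · have := up_ge x (m := m + 1) (by omega) (not_lt.1 hc) b2
    omega

theorem claimB (hf : Continuous f) (hl : ∀ t, ⌊h y (f t)⌋ = ⌊h x t⌋) :
    ∃ K : ℕ, ∀ m, K ≤ m → f (sv m) < cv m := by
  obtain ⟨K, hK⟩ : ∃ K : ℕ, f (sv 0) < cv K := by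
    obtain ⟨K, hK⟩ := exists_nat_gt (f (sv 0))
    refine ⟨K, hK.trans_le ?_⟩
    have h2 : (K : ℤ) ≤ cv K := (le_sv K).trans (sv_le_cv K)
    exact_mod_cast h2
  have step : ∀ m k : ℕ, m < k → f (sv m) < cv k → f (sv (m + 1)) < cv k := by
    intro m k hmk h1
    by_contra hcon
    have h2 : (sv m : ℝ) ≤ sv (m + 1) := by exact_mod_cast sv_mono (by omega)
    obtain ⟨t, a1, a2, a3⟩ := ivt hf h2 h1.le (not_lt.1 hcon)
    have e1 := hl t
    rw [a3, floor_h_cv] at e1
    have := floor_h_le x a2
    omega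
  have h1 : ∀ m, m ≤ K → f (sv m) < cv K := by
    intro m
    induction m with
    | zero => exact fun _ => hK
    | succ m ih => exact fun hm => step m K (by omega) (ih (by omega))
  refine ⟨K, fun m hm => ?_⟩
  induction m, hm using Nat.le_induction with
  | base => exact h1 K le_rfl
  | succ m hm ih =>
    refine step m (m + 1) (by omega) (ih.trans ?_)
    have h2 : cv m < cv (m + 1) := by unfold cv; push_cast; nlinarith
    exact_mod_cast h2

theorem finite_of_reduction (hf : Continuous f) (hl : ∀ t, ⌊h y (f t)⌋ = ⌊h x t⌋) :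
    (x \ y).Finite := by
  obtain ⟨K, hK⟩ := claimB hf hl
  refine (Set.finite_lt_nat K).subset ?_
  rintro m ⟨hx, hy⟩
  by_contra hm
  have hm : K ≤ m := not_lt.1 hm
  have h1 := hK m hm
  have h2 := claimA hf hl m
  have h3 : (sv m : ℝ) ≤ sv (m + 1) := by exact_mod_cast sv_mono (by omega)
  have h4 : (cv m : ℝ) + 1 < f (sv (m + 1)) := by
    by_contra hcon
    have h5 := peak_flat y hy h2.le (not_lt.1 hcon)
    rw [hl, floor_h_sv] at h5
    omega
  obtain ⟨t1, a1, a2, a3⟩ := ivt hf h3 h1.le h2.le
  obtain ⟨t2, b1, b2, b3⟩ := ivt hf h3 (c := cv m + 1) (h1.le.trans (by linarith)) h4.le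
  have e1 := hl t1
  have e2 := hl t2
  rw [a3, floor_h_cv] at e1
  rw [b3, peak_flat y hy (by linarith) le_rfl] at e2
  have c1 := peak_unique x hx a1 a2 e1.symm
  have c2 := peak_unique x hx b1 b2 e2.symm
  rw [c1] at a3
  rw [c2, a3] at b3
  linarith

end

/-! ### Smooth Lipschitz reductions -/

/-- There is a smooth Lipschitz map preserving the levels. -/
def Red (x y : Set ℕ) : Prop :=
  ∃ f : ℝ → ℝ, ContDiff ℝ ∞ f ∧ (∃ K, LipschitzWith K f) ∧ ∀ t, ⌊h y (f t)⌋ = ⌊h x t⌋

theorem Red.trans {x y z : Set ℕ} (h1 : Red x y) (h2 : Red y z) : Red x z := by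
  obtain ⟨f, hf, ⟨K, hK⟩, hf'⟩ := h1
  obtain ⟨g, hg, ⟨L, hL⟩, hg'⟩ := h2
  exact ⟨g ∘ f, hg.comp hf, ⟨_, hL.comp hK⟩, fun t => (hg' (f t)).trans (hf' t)⟩

/-- On the way down of a flat tent. -/
theorem down_flat (y : Set ℕ) {m : ℕ} (hm : m ∉ y) {u : ℝ} (h1 : (cv m : ℝ) + 1 ≤ u)
    (h2 : u ≤ sv (m + 1)) : ⌊h y u⌋ = ⌊(sv (m + 1) : ℝ) - u⌋ := by
  have key : ∀ n : ℤ, cv m + 1 ≤ n → n ≤ sv (m + 1) → H y n = sv (m + 1) - n := by
    intro n a b
    rw [H_eq y (m := m) (by have := sv_le_cv m; omega) b]
    have e0 : ((sv (m + 1) : ℤ) : ℝ) = cv m + m + 2 := by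
      rw [cv_eq, sv_succ]; push_cast; ring
    rcases (show n - cv m = 1 ∨ 2 ≤ n - cv m by omega) with h | h
    · rw [h, prof_one' y m (by norm_num) hm, e0]
      have : (n : ℝ) = cv m + 1 := by exact_mod_cast (show n = cv m + 1 by omega)
      rw [this]; ring
    · have e1 : |n - cv m| = n - cv m := abs_of_nonneg (by omega)
      rw [prof_far y m (by omega), e1, e0]
      push_cast
      ring
  have h3 := Int.floor_le u
  have h4 := Int.lt_floor_add_one u
  have h5 : cv m + 1 ≤ ⌊u⌋ := Int.le_floor.2 (by push_cast; exact h1)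
  rcases h2.lt_or_eq with h6 | h6
  · have h7 : ⌊u⌋ < sv (m + 1) := Int.floor_lt.2 h6
    rcases h3.lt_or_eq with h8 | h8
    · have e1 := key ⌊u⌋ h5 h7.le
      have e2 := key (⌊u⌋ + 1) (by omega) (by omega)
      have : UnitCell (H y) ⌊u⌋ (sv (m + 1) - ⌊u⌋ - 1) := by
        unfold UnitCell
        rw [e1, e2]
        push_cast
        refine ⟨by linarith, by linarith, by linarith, by linarith, fun h => by linarith⟩
      unfold h
      rw [this.floor h8 h4]
      symm
      rw [Int.floor_eq_iff]
      push_cast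
      constructor <;> linarith
    · rw [← h8, h_int, key _ h5 h7.le]
  · rw [h6, floor_h_sv, sub_self, Int.floor_zero]

open Classical in
/-- Folding the beginning onto the way down of a flat tent. -/
theorem red_fold (x : Set ℕ) (N : ℕ) : Red x (x \ {k | k ≤ N}) := by
  set y : Set ℕ := x \ {k | k ≤ N} with hy
  have hN : N ∉ y := fun h => h.2 (le_refl N)
  set g : ℤ → ℝ := fun n => if n ≤ cv N + 2 then sv (N + 1) - H x n else n with hg
  have e0 : sv (N + 1) = cv N + N + 2 := by rw [cv_eq, sv_succ]; ring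
  have hjoin : H x (cv N + 2) = N := by
    rw [H_eq x (m := N) (by have := sv_le_cv N; omega) (by rw [e0]; omega)]
    rw [show cv N + 2 - cv N = 2 by ring, prof_far x N (by norm_num)]
    norm_num
  have hgj : g (cv N + 2) = ((cv N + 2 : ℤ) : ℝ) := by
    rw [hg]
    simp only [le_refl, if_true]
    rw [hjoin, e0]
    push_cast
    ring
  have hgr : ∀ n, cv N + 2 ≤ n → g n = n := by
    intro n hn
    rcases hn.lt_or_eq with h | h
    · rw [hg]
      simp only
      rw [if_neg (by omega)]
    · rw [← h, hgj]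
  have hgl : ∀ n, n ≤ cv N + 2 → g n = sv (N + 1) - H x n := by
    intro n hn
    rw [hg]
    simp only
    rw [if_pos hn]
  -- the heights agree to the right
  have hHr : ∀ n, cv N + 2 ≤ n → H y n = H x n := by
    intro n hn
    have h0 : 0 ≤ n := by have := sv_nonneg N; have := sv_le_cv N; omega
    obtain ⟨m, a, b⟩ := exists_idx h0
    rw [H_eq y a b.le, H_eq x a b.le]
    have hm : N ≤ m := by
      by_contra hc
      have := sv_mono (show m + 1 ≤ N by omega)
      have := sv_le_cv N
      omega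
    rcases hm.lt_or_eq with h | h
    · have : m ∈ y ↔ m ∈ x := by
        rw [hy]
        constructor
        · exact fun h => h.1
        · exact fun h' => ⟨h', by simp only [mem_ofPred_eq]; omega⟩
      unfold prof
      simp only [this]
    · subst h
      have h2 : 2 ≤ |n - cv N| := le_trans (by omega) (le_abs_self _)
      rw [prof_far _ _ h2, prof_far _ _ h2]
  refine ⟨itp g, contDiff_itp g, lipschitz_itp g 1 fun n => ?_, fun t => ?_⟩
  · rcases lt_or_ge n (cv N + 2) with h | h
    · rw [hgl _ h.le, hgl _ (by omega)]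
      have := H_step x n
      rw [abs_sub_comm] at this
      convert this using 2
      ring
    · rw [hgr _ h, hgr _ (by omega)]
      push_cast
      rw [add_sub_cancel_left, abs_one]
  · have h3 := Int.floor_le t
    have h4 := Int.lt_floor_add_one t
    rcases lt_or_ge ⌊t⌋ (cv N + 2) with hlt | hge
    · -- left part
      have e1 : itp g t = sv (N + 1) - h x t := by
        unfold h
        rw [itp_cell g _ h3 h4.le, itp_cell (H x) _ h3 h4.le, hgl _ hlt.le, hgl _ (by omega)]
        ring
      have ht : t ≤ sv (N + 1) := by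
        have : (⌊t⌋ : ℝ) + 1 ≤ sv (N + 1) := by exact_mod_cast (show ⌊t⌋ + 1 ≤ sv (N + 1) by omega)
        linarith
      have h5 := h_le x ht
      have h6 := h_nonneg x t
      have e2 : ((sv (N + 1) : ℤ) : ℝ) = cv N + N + 2 := by rw [e0]; push_cast; ring
      rw [e1, down_flat y hN (by linarith) (by linarith)]
      congr 1
      ring
    · rcases h3.lt_or_eq with h5 | h5
      · have e1 : (⌊t⌋ : ℝ) < itp g t ∧ itp g t < ⌊t⌋ + 1 := by
          have q1 := hgr _ hge
          have q2 := hgr _ (show cv N + 2 ≤ ⌊t⌋ + 1 by omega)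
          push_cast at q2
          exact itp_mem_Ioo g ⌊t⌋ h5 h4 (by linarith) (by linarith) (by linarith) (by linarith)
            (by rw [q1, q2]; linarith)
        obtain ⟨k, hk⟩ := unitCell_H x ⌊t⌋
        have hk' : UnitCell (H y) ⌊t⌋ k := by
          unfold UnitCell at hk ⊢
          rwa [hHr _ hge, hHr _ (show cv N + 2 ≤ ⌊t⌋ + 1 by omega)]
        unfold h
        rw [hk.floor h5 h4, hk'.floor e1.1 e1.2]
      · rw [← h5, itp_int, hgr _ hge, h_int, h_int, hHr _ hge]

open Classical in
/-- Sharpening tents. -/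
theorem red_sub {x y : Set ℕ} (hxy : x ⊆ y) : Red x y := by
  set g : ℤ → ℝ := fun n => if 0 ≤ n ∧ idx n ∈ y ∧ idx n ∉ x ∧ |n - cv (idx n)| = 1 then
    cv (idx n) else n with hg
  have hgn : ∀ n : ℤ, n < 0 → g n = n := by
    intro n hn
    rw [hg]
    simp only
    rw [if_neg (fun h => by omega)]
  have hgi : ∀ (m : ℕ) (n : ℤ), sv m ≤ n → n ≤ sv (m + 1) → ¬ (m ∈ y ∧ m ∉ x ∧ |n - cv m| = 1) →
      g n = n := by
    intro m n a b c
    rw [hg]
    simp only
    rcases b.lt_or_eq with b' | b'
    · rw [idx_eq a b', if_neg]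
      exact fun h => c h.2
    · have h1 : idx n = m + 1 := idx_eq (by omega) (by rw [b']; exact sv_strictMono (by omega))
      rw [h1, if_neg]
      rintro ⟨-, -, -, h2⟩
      rw [b', cv_eq, abs_of_nonpos (by omega)] at h2
      push_cast at h2
      omega
  have hgc : ∀ (m : ℕ) (n : ℤ), m ∈ y → m ∉ x → |n - cv m| = 1 → g n = cv m := by
    intro m n hmy hmx hn
    have h1 : sv m ≤ n ∧ n < sv (m + 1) := by
      rw [sv_succ]
      rw [cv_eq] at hn
      rcases abs_eq (by norm_num : (0 : ℤ) ≤ 1) |>.1 hn with h | h <;> omega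
    rw [hg]
    simp only
    rw [idx_eq h1.1 h1.2, if_pos ⟨(sv_nonneg m).trans h1.1, hmy, hmx, hn⟩]
  have hgd : ∀ n, |g n - n| ≤ 1 := by
    intro n
    by_cases h0 : 0 ≤ n ∧ idx n ∈ y ∧ idx n ∉ x ∧ |n - cv (idx n)| = 1
    · rw [hg]
      simp only
      rw [if_pos h0, abs_sub_comm]
      have := h0.2.2.2
      exact_mod_cast this.le
    · rw [hg]
      simp only
      rw [if_neg h0, sub_self, abs_zero]
      norm_num
  refine ⟨itp g, contDiff_itp g, lipschitz_itp g 3 fun n => ?_, fun t => ?_⟩
  · have h1 := abs_le.1 (hgd n)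
    have h2 := abs_le.1 (hgd (n + 1))
    push_cast at h2
    rw [abs_le]
    constructor <;> linarith
  · have h3 := Int.floor_le t
    have h4 := Int.lt_floor_add_one t
    -- cells on which nothing happens
    have plain : ∀ n : ℤ, n = ⌊t⌋ → g n = n → g (n + 1) = ((n + 1 : ℤ) : ℝ) → H y n = H x n →
        H y (n + 1) = H x (n + 1) → ⌊h y (itp g t)⌋ = ⌊h x t⌋ := by
      intro n hn a1 a2 a3 a4
      subst hn
      rcases h3.lt_or_eq with h5 | h5
      · have e1 : (⌊t⌋ : ℝ) < itp g t ∧ itp g t < ⌊t⌋ + 1 := by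
          push_cast at a2
          exact itp_mem_Ioo g ⌊t⌋ h5 h4 (by linarith) (by linarith) (by linarith) (by linarith)
            (by rw [a1, a2]; linarith)
        obtain ⟨k, hk⟩ := unitCell_H x ⌊t⌋
        have hk' : UnitCell (H y) ⌊t⌋ k := by
          unfold UnitCell at hk ⊢
          rwa [a3, a4]
        unfold h
        rw [hk.floor h5 h4, hk'.floor e1.1 e1.2]
      · rw [← h5, itp_int, a1, h_int, h_int, a3]
    rcases lt_or_ge ⌊t⌋ 0 with hneg | hpos
    · refine plain _ rfl (hgn _ hneg) ?_ ?_ ?_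
      · rcases (show ⌊t⌋ + 1 < 0 ∨ ⌊t⌋ + 1 = 0 by omega) with h | h
        · exact hgn _ h
        · rw [h]
          refine hgi 0 0 (by rw [sv_zero]) (sv_nonneg 1) ?_
          rintro ⟨-, -, h'⟩
          simp [cv] at h'
      · rw [H_nonpos _ hneg.le, H_nonpos _ hneg.le]
      · rw [H_nonpos _ (by omega), H_nonpos _ (by omega)]
    · obtain ⟨m, a, b⟩ := exists_idx hpos
      by_cases hm : m ∈ y ∧ m ∉ x
      swap
      · -- the tent is the same
        have hiff : m ∈ y ↔ m ∈ x := by
          constructor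
          · intro h
            by_contra hc
            exact hm ⟨h, hc⟩
          · exact fun h => hxy h
        refine plain _ rfl (hgi m _ a b.le (fun h => hm ⟨h.1, h.2.1⟩))
          (hgi m _ (by omega) (by omega) (fun h => hm ⟨h.1, h.2.1⟩)) ?_ ?_
        · rw [H_eq y a b.le, H_eq x a b.le]
          unfold prof
          simp only [hiff]
        · rw [H_eq y (m := m) (by omega) (by omega), H_eq x (m := m) (by omega) (by omega)]
          unfold prof
          simp only [hiff]
      · obtain ⟨hmy, hmx⟩ := hm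
        set n := ⌊t⌋ with hn
        have hHy : ∀ k, sv m ≤ k → k ≤ sv (m + 1) → |k - cv m| ≠ 1 → H y k = H x k := by
          intro k a b c
          rw [H_eq y a b, H_eq x a b]
          unfold prof
          rw [if_neg c, if_neg c]
        have hsc := sv_le_cv m
        have e0 : sv (m + 1) = cv m + m + 2 := by rw [cv_eq, sv_succ]; ring
        have e0' : sv m + m + 2 = cv m := by rw [cv_eq]
        have val : ∀ k : ℤ, |k - cv m| = 1 → H x k = m + 1 ∧ H y k = m + 1 / 2 := by
          intro k hk
          have hk' : sv m ≤ k ∧ k ≤ sv (m + 1) := by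
            rcases abs_eq (by norm_num : (0 : ℤ) ≤ 1) |>.1 hk with h | h <;> omega
          rw [H_eq x hk'.1 hk'.2, H_eq y hk'.1 hk'.2, prof_one' x m hk hmx, prof_one y m hk hmy]
          exact ⟨rfl, rfl⟩
        have val2 : ∀ k : ℤ, |k - cv m| = 2 → H x k = m ∧ H y k = m ∧ g k = k := by
          intro k hk
          have hk' : sv m ≤ k ∧ k ≤ sv (m + 1) := by
            rcases abs_eq (by norm_num : (0 : ℤ) ≤ 2) |>.1 hk with h | h <;> omega
          rw [H_eq x hk'.1 hk'.2, H_eq y hk'.1 hk'.2, prof_far x m hk.ge, prof_far y m hk.ge, hk]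
          refine ⟨by push_cast; ring, by push_cast; ring, ?_⟩
          exact hgi m k hk'.1 hk'.2 (fun h => by omega)
        have fl : ∀ c : ℤ, ∀ u : ℝ, (c : ℝ) ≤ u → u < c + 1 → ⌊u⌋ = c := fun c u h1 h2 =>
          Int.floor_eq_iff.2 ⟨h1, h2⟩
        have hcvx := H_cv x m
        have hcvy := H_cv y m
        have hgcv : g (cv m) = cv m := hgi m _ hsc (by omega) (fun h => by simp at h)
        rcases (show n + 1 < cv m - 1 ∨ n + 1 = cv m - 1 ∨ n + 1 = cv m ∨ n + 1 = cv m + 1 ∨
          n + 1 = cv m + 2 ∨ cv m + 2 ≤ n by omega) with hp | hp | hp | hp | hp | hp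
        · have q1 : |n - cv m| ≠ 1 := by
            rw [abs_of_nonpos (by omega)]; omega
          have q2 : |n + 1 - cv m| ≠ 1 := by
            rw [abs_of_nonpos (by omega)]; omega
          exact plain _ rfl (hgi m _ a b.le (fun h => q1 h.2.2))
            (hgi m _ (by omega) (by omega) (fun h => q2 h.2.2)) (hHy _ a b.le q1)
            (hHy _ (by omega) (by omega) q2)
        · -- the cell before the flat part
          have q1 : |n - cv m| = 2 := by rw [abs_of_nonpos (by omega)]; omega
          have q2 : |n + 1 - cv m| = 1 := by rw [abs_of_nonpos (by omega)]; omega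
          obtain ⟨x1, y1, g1⟩ := val2 n q1
          obtain ⟨x2, y2⟩ := val (n + 1) q2
          have g2 := hgc m (n + 1) hmy hmx q2
          have hcn : (cv m : ℝ) = n + 2 := by exact_mod_cast (show cv m = n + 2 by omega)
          rcases h3.lt_or_eq with h5 | h5
          · have r1 : (n : ℝ) < itp g t ∧ itp g t < n + 2 :=
              itp_mem_Ioo g n h5 h4 (by linarith) (by linarith) (by linarith) (by linarith)
                (by rw [g1, g2]; linarith)
            have r2 : (m : ℝ) < h x t ∧ h x t < m + 1 :=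
              itp_mem_Ioo (H x) n h5 h4 (by linarith) (by linarith) (by linarith) (by linarith)
                (by rw [x1, x2]; linarith)
            have y3 : H y (n + 1 + 1) = m + 1 := by
              rw [show n + 1 + 1 = cv m by omega, hcvy]
            have r3 : (m : ℝ) ≤ h y (itp g t) ∧ h y (itp g t) < m + 1 := by
              rcases le_total (itp g t) (n + 1) with h6 | h6
              · have := itp_mem_Icc (H y) n (a := m) (b := m + 1 / 2) r1.1.le h6 (by linarith)
                  (by linarith) (by linarith) (by linarith)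
                exact ⟨this.1, by have := this.2; unfold h; linarith⟩
              · rcases h6.lt_or_eq with h7 | h7
                · have h8 : ((n + 1 : ℤ) : ℝ) < itp g t := by push_cast; exact h7
                  have h9 : itp g t < ((n + 1 : ℤ) : ℝ) + 1 := by push_cast; linarith [r1.2]
                  have := itp_mem_Ioo (H y) (n + 1) (a := m) (b := m + 1) h8 h9 (by linarith)
                    (by linarith) (by linarith) (by linarith) (by rw [y2, y3]; linarith)
                  exact ⟨this.1.le, this.2⟩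
                · have h8 : itp g t = ((n + 1 : ℤ) : ℝ) := by push_cast; exact h7.symm
                  rw [h8, h_int, y2]
                  constructor <;> linarith
            rw [fl m _ (by exact_mod_cast r3.1) (by exact_mod_cast r3.2),
              fl m _ (by exact_mod_cast r2.1.le) (by exact_mod_cast r2.2)]
          · rw [← h5, itp_int, g1, h_int, h_int, x1, y1]
        · have q1 : |n - cv m| = 1 := by rw [abs_of_nonpos (by omega)]; omega
          have g1 := hgc m n hmy hmx q1
          have g2 : g (n + 1) = cv m := by rw [hp, hgcv]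
          obtain ⟨x1, y1⟩ := val n q1
          rw [itp_const g n h3 h4.le g1 g2, h_int, hcvy]
          unfold h
          rw [itp_const (H x) n h3 h4.le x1 (by rw [hp, hcvx])]
        · have hn' : n = cv m := by omega
          have q1 : |n + 1 - cv m| = 1 := by rw [abs_of_nonneg (by omega)]; omega
          have g1 := hgc m (n + 1) hmy hmx q1
          have g2 : g n = cv m := by rw [hn', hgcv]
          obtain ⟨x1, y1⟩ := val (n + 1) q1
          rw [itp_const g n h3 h4.le g2 g1, h_int, hcvy]
          unfold h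
          rw [itp_const (H x) n h3 h4.le (by rw [hn', hcvx]) x1]
        · -- the cell after the flat part
          have q1 : |n - cv m| = 1 := by rw [abs_of_nonneg (by omega)]; omega
          have q2 : |n + 1 - cv m| = 2 := by rw [abs_of_nonneg (by omega)]; omega
          obtain ⟨x1, y1⟩ := val n q1
          obtain ⟨x2, y2, g2⟩ := val2 (n + 1) q2
          have g1 := hgc m n hmy hmx q1
          push_cast at g2
          have hcn : (cv m : ℝ) = n - 1 := by
            have : cv m = n - 1 := by omega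
            rw [this]; push_cast; ring
          rcases h3.lt_or_eq with h5 | h5
          · have r1 : (n : ℝ) - 1 < itp g t ∧ itp g t < n + 1 :=
              itp_mem_Ioo g n h5 h4 (by linarith) (by linarith) (by linarith) (by linarith)
                (by rw [g1, g2]; linarith)
            have r2 : (m : ℝ) < h x t ∧ h x t < m + 1 :=
              itp_mem_Ioo (H x) n h5 h4 (by linarith) (by linarith) (by linarith) (by linarith)
                (by rw [x1, x2]; linarith)
            have y3 : H y (n - 1) = m + 1 := by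
              rw [show n - 1 = cv m by omega, hcvy]
            have r3 : (m : ℝ) ≤ h y (itp g t) ∧ h y (itp g t) < m + 1 := by
              rcases le_total (itp g t) n with h6 | h6
              · rcases h6.lt_or_eq with h7 | h7
                · have h8 : ((n - 1 : ℤ) : ℝ) < itp g t := by push_cast; linarith [r1.1]
                  have h9 : itp g t < ((n - 1 : ℤ) : ℝ) + 1 := by push_cast; linarith
                  have y1' : H y (n - 1 + 1) = m + 1 / 2 := by rw [sub_add_cancel, y1]
                  have := itp_mem_Ioo (H y) (n - 1) (a := m) (b := m + 1) h8 h9 (by linarith)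
                    (by linarith) (by linarith) (by linarith) (by rw [y1', y3]; linarith)
                  exact ⟨this.1.le, this.2⟩
                · rw [h7, h_int, y1]
                  constructor <;> linarith
              · have := itp_mem_Icc (H y) n (a := m) (b := m + 1 / 2) h6 r1.2.le (by linarith)
                  (by linarith) (by linarith) (by linarith)
                exact ⟨this.1, by have := this.2; unfold h; linarith⟩
            rw [fl m _ (by exact_mod_cast r3.1) (by exact_mod_cast r3.2),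
              fl m _ (by exact_mod_cast r2.1.le) (by exact_mod_cast r2.2)]
          · rw [← h5, itp_int, g1, h_int, h_int, hcvy, x1]
        · have q1 : |n - cv m| ≠ 1 := by
            rw [abs_of_nonneg (by omega)]; omega
          have q2 : |n + 1 - cv m| ≠ 1 := by
            rw [abs_of_nonneg (by omega)]; omega
          exact plain _ rfl (hgi m _ a b.le (fun h => q1 h.2.2))
            (hgi m _ (by omega) (by omega) (fun h => q2 h.2.2)) (hHy _ a b.le q1)
            (hHy _ (by omega) (by omega) q2)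

theorem red_of_finite {x y : Set ℕ} (h : (x \ y).Finite) : Red x y := by
  obtain ⟨N, hN⟩ := h.bddAbove
  refine (red_fold x N).trans (red_sub fun k hk => ?_)
  by_contra hky
  exact hk.2 (hN ⟨hk.1, hky⟩)

/-! ### The sets -/

/-- The set of the points at which the level is even. -/
def A (x : Set ℕ) : Set ℝ := {t | Even ⌊h x t⌋}

theorem even_floor_iff (u : ℝ) :
    Even ⌊u⌋ ↔ Real.cos (π * u) ≠ -1 ∧ 0 ≤ Real.sin (π * u) := by
  have h1 := Int.fract_nonneg u
  have h2 := Int.fract_lt_one u
  have hu : π * u = π * Int.fract u + ⌊u⌋ * π := by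
    have := Int.fract_add_floor u
    nlinarith [Real.pi_pos]
  have hpi := Real.pi_pos
  have hs : 0 ≤ Real.sin (π * Int.fract u) :=
    Real.sin_nonneg_of_nonneg_of_le_pi (by positivity) (by nlinarith)
  rcases Int.even_or_odd ⌊u⌋ with he | ho
  · refine ⟨fun _ => ?_, fun _ => he⟩
    rw [hu, Real.sin_add_int_mul_pi, Real.cos_add_int_mul_pi, he.neg_one_zpow, one_mul, one_mul]
    refine ⟨fun hc => ?_, hs⟩
    have h3 : Real.cos π < Real.cos (π * Int.fract u) :=
      Real.cos_lt_cos_of_nonneg_of_le_pi (by positivity) le_rfl (by nlinarith)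
    rw [Real.cos_pi, hc] at h3
    exact lt_irrefl _ h3
  · refine ⟨fun h => absurd h (Int.not_even_iff_odd.2 ho), fun h => ?_⟩
    exfalso
    rw [hu, Real.sin_add_int_mul_pi, Real.cos_add_int_mul_pi, ho.neg_one_zpow, neg_one_mul,
      neg_one_mul] at h
    have h3 : Real.sin (π * Int.fract u) = 0 := le_antisymm (by linarith [h.2]) hs
    have h4 : Int.fract u = 0 := by
      by_contra hc
      have h5 : 0 < Int.fract u := lt_of_le_of_ne h1 (Ne.symm hc)
      have := Real.sin_pos_of_pos_of_lt_pi (x := π * Int.fract u) (by positivity) (by nlinarith)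
      linarith
    rw [h4, mul_zero, Real.cos_zero] at h
    exact h.1 rfl

theorem locallyClosed_A (x : Set ℕ) : ∃ U F : Set ℝ, IsOpen U ∧ IsClosed F ∧ A x = U ∩ F := by
  refine ⟨{t | Real.cos (π * h x t) ≠ -1}, {t | 0 ≤ Real.sin (π * h x t)}, ?_, ?_, ?_⟩
  · exact isOpen_ne_fun (Real.continuous_cos.comp (continuous_const.mul (continuous_h x)))
      continuous_const
  · exact isClosed_le continuous_const
      (Real.continuous_sin.comp (continuous_const.mul (continuous_h x)))
  · ext t
    exact even_floor_iff _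

/-- All at once: smooth Lipschitz reductions exist if `x \ y` is finite, and continuous reductions
exist only if `x \ y` is finite. -/
theorem main : (∀ x, ∃ U F : Set ℝ, IsOpen U ∧ IsClosed F ∧ A x = U ∩ F) ∧
    (∀ x y : Set ℕ, (x \ y).Finite →
      ∃ f : ℝ → ℝ, ContDiff ℝ ∞ f ∧ (∃ K, LipschitzWith K f) ∧ A x = f ⁻¹' A y) ∧
    ∀ x y : Set ℕ, (∃ f : ℝ → ℝ, Continuous f ∧ A x = f ⁻¹' A y) → (x \ y).Finite := by
  refine ⟨locallyClosed_A, fun x y hxy => ?_, ?_⟩
  · obtain ⟨f, hf, hK, hl⟩ := red_of_finite hxy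
    refine ⟨f, hf, hK, ?_⟩
    ext t
    change Even ⌊h x t⌋ ↔ Even ⌊h y (f t)⌋
    rw [hl]
  · rintro x y ⟨f, hf, hA⟩
    refine finite_of_reduction hf (level_eq hf fun t => ?_)
    have : t ∈ A x ↔ t ∈ f ⁻¹' A y := by rw [hA]
    exact this.symm

end Pool.Agent.R609.Tents
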