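import Pool.Agent.R609.Itp

/-! # Functions with tents of increasing heights -/

set_option autoImplicit false

open Filter Topology Real Set
open scoped ContDiff

namespace Pool.Agent.R609.Tents

open Pool.Agent.R609

/-- The valleys. -/
def sv (m : ℕ) : ℤ := (m : ℤ) ^ 2 + 3 * m

/-- The peaks. -/
def cv (m : ℕ) : ℤ := (m : ℤ) ^ 2 + 4 * m + 2

theorem cv_eq (m : ℕ) : cv m = sv m + m + 2 := by unfold cv sv; ring

theorem sv_succ (m : ℕ) : sv (m + 1) = sv m + 2 * m + 4 := by unfold sv; push_cast; ring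

theorem sv_zero : sv 0 = 0 := by simp [sv]

theorem sv_strictMono : StrictMono sv := strictMono_nat_of_lt_succ fun m => by
  rw [sv_succ]
  have : (0 : ℤ) ≤ m := by positivity
  omega

theorem sv_mono : Monotone sv := sv_strictMono.monotone

theorem le_sv (m : ℕ) : (m : ℤ) ≤ sv m := by
  induction m with
  | zero => simp [sv]
  | succ m ih => rw [sv_succ]; push_cast; omega

theorem sv_nonneg (m : ℕ) : 0 ≤ sv m := le_trans (by positivity) (le_sv m)

theorem exists_lt (n : ℤ) : ∃ m : ℕ, n < sv (m + 1) := by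
  refine ⟨n.toNat, ?_⟩
  have h1 := le_sv (n.toNat + 1)
  have h2 := Int.self_le_toNat n
  push_cast at h1
  omega

open Classical in
/-- The tent over an integer. -/
noncomputable def idx (n : ℤ) : ℕ := Nat.find (exists_lt n)

theorem idx_eq {m : ℕ} {n : ℤ} (h1 : sv m ≤ n) (h2 : n < sv (m + 1)) : idx n = m := by
  classical
  unfold idx
  rw [Nat.find_eq_iff]
  refine ⟨h2, fun k hk => ?_⟩
  have := sv_mono (show k + 1 ≤ m by omega)
  omega

theorem exists_idx {n : ℤ} (hn : 0 ≤ n) : ∃ m : ℕ, sv m ≤ n ∧ n < sv (m + 1) := by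
  classical
  refine ⟨Nat.find (exists_lt n), ?_, Nat.find_spec (exists_lt n)⟩
  rcases h : Nat.find (exists_lt n) with _ | k
  · rw [sv_zero]; exact hn
  · have := Nat.find_min (exists_lt n) (m := k) (by omega)
    omega

open Classical in
/-- The profile of a tent. -/
noncomputable def prof (x : Set ℕ) (m : ℕ) (u : ℤ) : ℝ :=
  if |u| = 1 then (if m ∈ x then (m : ℝ) + 1 / 2 else m + 1) else min ((m : ℝ) + 1) (m + 2 - |u|)

/-- The heights at the integers. -/
noncomputable def H (x : Set ℕ) (n : ℤ) : ℝ := if n ≤ 0 then 0 else prof x (idx n) (n - cv (idx n))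

theorem prof_edge (x : Set ℕ) (m : ℕ) (u : ℤ) (hu : |u| = m + 2) : prof x m u = 0 := by
  have h1 : |u| ≠ 1 := by rw [hu]; omega
  rw [prof, if_neg h1, hu]
  push_cast
  rw [min_eq_right] <;> linarith [show (0 : ℝ) ≤ m by positivity]

theorem H_eq (x : Set ℕ) {m : ℕ} {n : ℤ} (h1 : sv m ≤ n) (h2 : n ≤ sv (m + 1)) :
    H x n = prof x m (n - cv m) := by
  have h0 := sv_nonneg m
  by_cases hn : n ≤ 0
  · have hm : m = 0 := by
      have := le_sv m
      omega
    subst hm
    rw [H, if_pos hn, prof_edge]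
    rw [sv_zero] at h1
    have : n = 0 := le_antisymm hn h1
    subst this
    simp [cv]
  · rcases h2.lt_or_eq with h3 | h3
    · rw [H, if_neg hn, idx_eq h1 h3]
    · have h4 : idx n = m + 1 := idx_eq (by omega) (by rw [h3]; exact sv_strictMono (by omega))
      rw [H, if_neg hn, h4, prof_edge, prof_edge]
      · rw [h3, cv_eq, sv_succ]
        rw [abs_of_nonneg] <;> omega
      · rw [h3, cv_eq]
        rw [abs_of_nonpos] <;> push_cast <;> omega

theorem H_nonpos (x : Set ℕ) {n : ℤ} (hn : n ≤ 0) : H x n = 0 := by rw [H, if_pos hn]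

/-- Coordinates of an integer in a tent. -/
theorem coord {m : ℕ} {n : ℤ} (h1 : sv m ≤ n) (h2 : n ≤ sv (m + 1)) : |n - cv m| ≤ m + 2 := by
  rw [cv_eq, abs_le]
  rw [sv_succ] at h2
  constructor <;> omega

theorem prof_far (x : Set ℕ) (m : ℕ) {u : ℤ} (hu : 2 ≤ |u|) : prof x m u = m + 2 - |u| := by
  have h1 : |u| ≠ 1 := by omega
  rw [prof, if_neg h1]
  have : (2 : ℝ) ≤ (|u| : ℤ) := by exact_mod_cast hu
  rw [min_eq_right (by linarith)]

theorem prof_zero (x : Set ℕ) (m : ℕ) : prof x m 0 = m + 1 := by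
  simp [prof]

theorem prof_one (x : Set ℕ) (m : ℕ) {u : ℤ} (hu : |u| = 1) (hm : m ∈ x) :
    prof x m u = m + 1 / 2 := by
  rw [prof, if_pos hu, if_pos hm]

theorem prof_one' (x : Set ℕ) (m : ℕ) {u : ℤ} (hu : |u| = 1) (hm : m ∉ x) :
    prof x m u = m + 1 := by
  rw [prof, if_pos hu, if_neg hm]

theorem abs_cases3 (u : ℤ) : u = 0 ∨ |u| = 1 ∨ 2 ≤ |u| := by
  rcases abs_cases u with ⟨h, h'⟩ | ⟨h, h'⟩ <;> omega

theorem prof_nonneg (x : Set ℕ) (m : ℕ) {u : ℤ} (hu : |u| ≤ m + 2) : 0 ≤ prof x m u := by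
  have hm : (0 : ℝ) ≤ m := by positivity
  rcases abs_cases3 u with h | h | h
  · rw [h, prof_zero]; linarith
  · by_cases hx : m ∈ x
    · rw [prof_one x m h hx]; linarith
    · rw [prof_one' x m h hx]; linarith
  · rw [prof_far x m h]
    have : ((|u| : ℤ) : ℝ) ≤ m + 2 := by exact_mod_cast hu
    linarith

theorem prof_le (x : Set ℕ) (m : ℕ) (u : ℤ) : prof x m u ≤ m + 1 := by
  rcases abs_cases3 u with h | h | h
  · rw [h, prof_zero]
  · by_cases hx : m ∈ x
    · rw [prof_one x m h hx]; linarith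
    · rw [prof_one' x m h hx]
  · rw [prof_far x m h]
    have : (2 : ℝ) ≤ (|u| : ℤ) := by exact_mod_cast h
    linarith

theorem H_nonneg (x : Set ℕ) (n : ℤ) : 0 ≤ H x n := by
  rcases le_total n 0 with h | h
  · rw [H_nonpos x h]
  · obtain ⟨m, h1, h2⟩ := exists_idx h
    rw [H_eq x h1 h2.le]
    exact prof_nonneg x m (coord h1 h2.le)

theorem H_le (x : Set ℕ) {m : ℕ} {n : ℤ} (h : n ≤ sv (m + 1)) : H x n ≤ m + 1 := by
  have hm : (0 : ℝ) ≤ m := by positivity
  rcases le_total n 0 with h0 | h0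
  · rw [H_nonpos x h0]; linarith
  · obtain ⟨k, h1, h2⟩ := exists_idx h0
    by_cases hk : k ≤ m
    · rw [H_eq x h1 h2.le]
      have := prof_le x k (n - cv k)
      have h3 : (k : ℝ) ≤ m := by exact_mod_cast hk
      linarith
    · have h3 := sv_mono (show m + 1 ≤ k by omega)
      have h4 : n = sv k := by omega
      rw [H_eq x h1 h2.le, prof_edge]
      · linarith
      · rw [h4, cv_eq, abs_of_nonpos] <;> omega

theorem H_sv (x : Set ℕ) (m : ℕ) : H x (sv m) = 0 := by
  rw [H_eq x le_rfl (sv_mono (by omega)), prof_edge]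
  rw [cv_eq, abs_of_nonpos] <;> omega

theorem sv_le_cv (m : ℕ) : sv m ≤ cv m := by rw [cv_eq]; omega

theorem cv_le_sv (m : ℕ) : cv m ≤ sv (m + 1) := by rw [cv_eq, sv_succ]; omega

theorem H_cv (x : Set ℕ) (m : ℕ) : H x (cv m) = m + 1 := by
  rw [H_eq x (sv_le_cv m) (cv_le_sv m), sub_self, prof_zero]

/-- The heights at consecutive integers lie in a common unit interval; if they are equal then they
are the lower end of it. -/
def UnitCell (g : ℤ → ℝ) (n k : ℤ) : Prop :=
  (k : ℝ) ≤ g n ∧ (k : ℝ) ≤ g (n + 1) ∧ g n ≤ k + 1 ∧ g (n + 1) ≤ k + 1 ∧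
    (g n = g (n + 1) → g n = k)

theorem UnitCell.floor {g : ℤ → ℝ} {n k : ℤ} (h : UnitCell g n k) {t : ℝ} (h1 : (n : ℝ) < t)
    (h2 : t < n + 1) : ⌊itp g t⌋ = k := by
  obtain ⟨a, b, c, d, e⟩ := h
  by_cases hne : g n = g (n + 1)
  · rw [itp_const g n h1.le h2.le (e hne) (by rw [← hne]; exact e hne), Int.floor_intCast]
  · have := itp_mem_Ioo g n h1 h2 a b c d hne
    exact Int.floor_eq_iff.2 ⟨this.1.le, this.2⟩

theorem unitCell_H (x : Set ℕ) (n : ℤ) : ∃ k, UnitCell (H x) n k := by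
  rcases lt_or_ge n 0 with h | h
  · refine ⟨0, ?_⟩
    have e1 := H_nonpos x h.le
    have e2 := H_nonpos x (show n + 1 ≤ 0 by omega)
    unfold UnitCell
    rw [e1, e2]
    norm_num
  · obtain ⟨m, h1, h2⟩ := exists_idx h
    have e1 := H_eq x h1 h2.le
    have e2 := H_eq x (show sv m ≤ n + 1 by omega) (show n + 1 ≤ sv (m + 1) by omega)
    set u := n - cv m with hu
    have e3 : n + 1 - cv m = u + 1 := by omega
    rw [e3] at e2
    unfold UnitCell
    rw [e1, e2]
    -- positions
    have hpos : u ≤ -3 ∨ u = -2 ∨ u = -1 ∨ u = 0 ∨ u = 1 ∨ 2 ≤ u := by omega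
    rcases hpos with hp | hp | hp | hp | hp | hp
    · have a1 : |u| = -u := abs_of_nonpos (by omega)
      have a2 : |u + 1| = -(u + 1) := abs_of_nonpos (by omega)
      rw [prof_far x m (show 2 ≤ |u| by omega), prof_far x m (show 2 ≤ |u + 1| by omega), a1, a2]
      refine ⟨m + 2 + u, ?_⟩
      push_cast
      refine ⟨by linarith, by linarith, by linarith, by linarith, fun h => by linarith⟩
    · rw [hp]
      rw [prof_far x m (by norm_num)]
      refine ⟨m, ?_⟩
      have a3 : (|(-2 : ℤ)| : ℤ) = 2 := by norm_num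
      rw [a3]
      push_cast
      by_cases hx : m ∈ x
      · rw [prof_one x m (by norm_num) hx]
        refine ⟨by linarith, by linarith, by linarith, by linarith, fun h => by linarith⟩
      · rw [prof_one' x m (by norm_num) hx]
        refine ⟨by linarith, by linarith, by linarith, by linarith, fun h => by linarith⟩
    · rw [hp]
      have a4 : (-1 : ℤ) + 1 = 0 := by norm_num
      rw [a4, prof_zero]
      by_cases hx : m ∈ x
      · rw [prof_one x m (by norm_num) hx]
        refine ⟨m, ?_⟩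
        push_cast
        refine ⟨by linarith, by linarith, by linarith, by linarith, fun h => by linarith⟩
      · rw [prof_one' x m (by norm_num) hx]
        refine ⟨m + 1, ?_⟩
        push_cast
        refine ⟨by linarith, by linarith, by linarith, by linarith, fun h => by linarith⟩
    · rw [hp, prof_zero]
      have a4 : (0 : ℤ) + 1 = 1 := by norm_num
      rw [a4]
      by_cases hx : m ∈ x
      · rw [prof_one x m (by norm_num) hx]
        refine ⟨m, ?_⟩
        push_cast
        refine ⟨by linarith, by linarith, by linarith, by linarith, fun h => by linarith⟩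
      · rw [prof_one' x m (by norm_num) hx]
        refine ⟨m + 1, ?_⟩
        push_cast
        refine ⟨by linarith, by linarith, by linarith, by linarith, fun h => by linarith⟩
    · rw [hp]
      have a4 : (1 : ℤ) + 1 = 2 := by norm_num
      rw [a4, prof_far x m (u := 2) (by norm_num)]
      have a3 : (|(2 : ℤ)| : ℤ) = 2 := by norm_num
      rw [a3]
      refine ⟨m, ?_⟩
      push_cast
      by_cases hx : m ∈ x
      · rw [prof_one x m (by norm_num) hx]
        refine ⟨by linarith, by linarith, by linarith, by linarith, fun h => by linarith⟩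
      · rw [prof_one' x m (by norm_num) hx]
        refine ⟨by linarith, by linarith, by linarith, by linarith, fun h => by linarith⟩
    · have a1 : |u| = u := abs_of_nonneg (by omega)
      have a2 : |u + 1| = (u + 1) := abs_of_nonneg (by omega)
      rw [prof_far x m (show 2 ≤ |u| by omega), prof_far x m (show 2 ≤ |u + 1| by omega), a1, a2]
      refine ⟨m + 1 - u, ?_⟩
      push_cast
      refine ⟨by linarith, by linarith, by linarith, by linarith, fun h => by linarith⟩

theorem H_step (x : Set ℕ) (n : ℤ) : |H x (n + 1) - H x n| ≤ 1 := by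
  obtain ⟨k, a, b, c, d, -⟩ := unitCell_H x n
  rw [abs_le]
  constructor <;> linarith

/-- The height function. -/
noncomputable def h (x : Set ℕ) : ℝ → ℝ := itp (H x)

theorem continuous_h (x : Set ℕ) : Continuous (h x) := continuous_itp _

theorem h_int (x : Set ℕ) (n : ℤ) : h x n = H x n := itp_int _ n

theorem h_nonneg (x : Set ℕ) (t : ℝ) : 0 ≤ h x t := by
  have h1 := Int.floor_le t
  have h2 := (Int.lt_floor_add_one t).le
  have e : (0 : ℝ) ≤ (H x ⌊t⌋) := H_nonneg _ _
  exact (itp_mem_Icc (H x) ⌊t⌋ h1 h2 e (H_nonneg _ _) (le_max_left _ _) (le_max_right _ _)).1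

theorem h_nonpos (x : Set ℕ) {t : ℝ} (ht : t ≤ 0) : h x t = 0 := by
  rcases ht.lt_or_eq with h0 | h0
  · have h1 := Int.floor_le t
    have h2 := (Int.lt_floor_add_one t).le
    have h3 : ⌊t⌋ + 1 ≤ 0 := by
      have : ⌊t⌋ < 0 := Int.floor_lt.2 (by exact_mod_cast h0)
      omega
    exact itp_const _ _ h1 h2 (H_nonpos x (by omega)) (H_nonpos x h3)
  · have : t = ((0 : ℤ) : ℝ) := by rw [h0]; simp
    rw [this, h_int, H_nonpos x le_rfl]

theorem h_le (x : Set ℕ) {m : ℕ} {t : ℝ} (ht : t ≤ sv (m + 1)) : h x t ≤ m + 1 := by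
  have h1 := Int.floor_le t
  have h2 := (Int.lt_floor_add_one t).le
  rcases ht.lt_or_eq with h0 | h0
  · have h3 : ⌊t⌋ < sv (m + 1) := Int.floor_lt.2 h0
    exact (itp_mem_Icc (H x) ⌊t⌋ (a := min (H x ⌊t⌋) (H x (⌊t⌋ + 1))) h1 h2 (min_le_left _ _)
      (min_le_right _ _) (H_le x h3.le) (H_le x (by omega))).2
  · rw [h0, h_int, H_sv]
    positivity

theorem floor_h_nonneg (x : Set ℕ) (t : ℝ) : 0 ≤ ⌊h x t⌋ := Int.floor_nonneg.2 (h_nonneg x t)

theorem floor_h_le (x : Set ℕ) {m : ℕ} {t : ℝ} (ht : t ≤ sv (m + 1)) : ⌊h x t⌋ ≤ m + 1 := by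
  have := Int.floor_le_floor (h_le x ht)
  have e : ⌊((m : ℝ) + 1)⌋ = m + 1 := by
    have : ((m : ℝ) + 1) = ((m + 1 : ℤ) : ℝ) := by push_cast; ring
    rw [this, Int.floor_intCast]
  omega

theorem floor_h_sv (x : Set ℕ) (m : ℕ) : ⌊h x (sv m)⌋ = 0 := by
  rw [h_int, H_sv, Int.floor_zero]

theorem floor_h_cv (x : Set ℕ) (m : ℕ) : ⌊h x (cv m)⌋ = m + 1 := by
  rw [h_int, H_cv]
  have : ((m : ℝ) + 1) = ((m + 1 : ℤ) : ℝ) := by push_cast; ring
  rw [this, Int.floor_intCast]

/-- On the way up to the peak: the level is zero before `sv m + 1`. -/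
theorem up_lt (x : Set ℕ) (m : ℕ) {t : ℝ} (h1 : (sv m : ℝ) ≤ t) (h2 : t < sv m + 1) :
    ⌊h x t⌋ = 0 := by
  rcases h1.lt_or_eq with h3 | h3
  · obtain ⟨k, hk⟩ := unitCell_H x (sv m)
    have h4 := hk.floor h3 h2
    obtain ⟨a, b, c, d, e⟩ := hk
    rw [H_sv] at a c e
    have hk0 : k = 0 ∨ k = -1 := by
      have a' : k ≤ 0 := by exact_mod_cast a
      have c' : (0 : ℤ) ≤ k + 1 := by exact_mod_cast c
      omega
    rcases hk0 with hk0 | hk0
    · unfold h
      rw [h4, hk0]
    · exfalso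
      have h5 := floor_h_nonneg x t
      unfold h at h5
      rw [h4, hk0] at h5
      omega
  · rw [← h3, floor_h_sv]

/-- On the way up to the peak: the level is positive from `sv m + 1` on. -/
theorem up_ge (x : Set ℕ) {m : ℕ} (hm : 1 ≤ m) {t : ℝ} (h1 : (sv m : ℝ) + 1 ≤ t) (h2 : t ≤ cv m) :
    1 ≤ ⌊h x t⌋ := by
  have key : ∀ n : ℤ, sv m + 1 ≤ n → n ≤ cv m → 1 ≤ H x n := by
    intro n a b
    have hm' : (1 : ℝ) ≤ m := by exact_mod_cast hm
    rw [H_eq x (by omega) (b.trans (cv_le_sv m))]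
    have hc : |n - cv m| ≤ m + 1 := by
      rw [cv_eq] at *
      rw [abs_le]
      constructor <;> omega
    rcases abs_cases3 (n - cv m) with h | h | h
    · rw [h, prof_zero]; linarith
    · by_cases hx : m ∈ x
      · rw [prof_one x m h hx]; linarith
      · rw [prof_one' x m h hx]; linarith
    · rw [prof_far x m h]
      have : ((|n - cv m| : ℤ) : ℝ) ≤ m + 1 := by exact_mod_cast hc
      linarith
  rw [Int.le_floor]
  have h3 := Int.floor_le t
  have h4 := Int.lt_floor_add_one t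
  have h5 : sv m + 1 ≤ ⌊t⌋ := by
    rw [Int.le_floor]
    push_cast
    exact h1
  rcases h2.lt_or_eq with h6 | h6
  · have h7 : ⌊t⌋ < cv m := Int.floor_lt.2 h6
    have := (itp_mem_Icc (H x) ⌊t⌋ h3 h4.le (key _ h5 h7.le) (key _ (by omega) (by omega))
      (le_max_left _ _) (le_max_right _ _)).1
    exact_mod_cast this
  · rw [h6, h_int]
    exact_mod_cast key _ (by rw [cv_eq]; omega) le_rfl

/-- The peak of a sharp tent is attained only once. -/
theorem peak_unique (x : Set ℕ) {m : ℕ} (hm : m ∈ x) {t : ℝ} (h1 : (sv m : ℝ) ≤ t)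
    (h2 : t ≤ sv (m + 1)) (h3 : ⌊h x t⌋ = m + 1) : t = cv m := by
  have h4 : (m : ℝ) + 1 ≤ h x t := by
    have := Int.floor_le (h x t)
    rw [h3] at this
    push_cast at this
    exact this
  have key : ∀ n : ℤ, sv m ≤ n → n ≤ sv (m + 1) → n ≠ cv m → H x n < m + 1 := by
    intro n a b c
    rw [H_eq x a b]
    rcases abs_cases3 (n - cv m) with h | h | h
    · exact absurd (by omega) c
    · rw [prof_one x m h hm]; linarith
    · rw [prof_far x m h]
      have : (2 : ℝ) ≤ (|n - cv m| : ℤ) := by exact_mod_cast h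
      linarith
  have h5 := Int.floor_le t
  have h6 := Int.lt_floor_add_one t
  have h7 : sv m ≤ ⌊t⌋ := Int.le_floor.2 h1
  rcases h2.lt_or_eq with h8 | h8
  · have h9 : ⌊t⌋ < sv (m + 1) := Int.floor_lt.2 h8
    by_contra hne
    rcases h5.lt_or_eq with h10 | h10
    · by_cases he : H x ⌊t⌋ = H x (⌊t⌋ + 1)
      · have h11 : h x t = H x ⌊t⌋ := itp_const _ _ h5 h6.le rfl he.symm
        rw [h11] at h4
        by_cases hc : ⌊t⌋ = cv m
        · have := key (⌊t⌋ + 1) (by omega) (by omega) (by omega)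
          rw [← he] at this
          linarith
        · have := key ⌊t⌋ h7 h9.le hc
          linarith
      · have := (itp_mem_Ioo (H x) ⌊t⌋ (a := min (H x ⌊t⌋) (H x (⌊t⌋ + 1))) h10 h6 (min_le_left _ _)
          (min_le_right _ _) (H_le x h9.le) (H_le x (show ⌊t⌋ + 1 ≤ sv (m + 1) by omega)) he).2
        change h x t < _ at this
        linarith
    · rw [← h10] at h4 hne
      rw [h_int] at h4
      have := key ⌊t⌋ h7 h9.le (fun hc => hne (by exact_mod_cast hc))
      linarith
  · exfalso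
    rw [h8, h_int, H_sv] at h4
    have : (0 : ℝ) ≤ m := by positivity
    linarith

/-- The peak of a flat tent. -/
theorem peak_flat (y : Set ℕ) {m : ℕ} (hm : m ∉ y) {t : ℝ} (h1 : (cv m : ℝ) ≤ t)
    (h2 : t ≤ cv m + 1) : ⌊h y t⌋ = m + 1 := by
  have e1 := H_cv y m
  have e2 : H y (cv m + 1) = m + 1 := by
    rw [H_eq y (m := m) (by have := sv_le_cv m; omega) (by rw [sv_succ, cv_eq]; omega)]
    rw [prof_one' y m (by rw [add_sub_cancel_left, abs_one]) hm]
  have : h y t = ((m + 1 : ℤ) : ℝ) := by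
    rw [h, itp_const _ _ h1 h2 e1 e2]
    push_cast
    ring
  rw [this, Int.floor_intCast]

end Pool.Agent.R609.Tents
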